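import Mathlib

/-!
Basic tools for hyperinvariant subspaces (helper15).
-/

set_option autoImplicit false

open Filter Topology

namespace Pool.Agent.Lib_helper15

variable {X : Type*} [NormedAddCommGroup X] [NormedSpace ℂ X]

/-- `S` has a nontrivial hyperinvariant subspace: a closed subspace `M` with `{0} ≠ M ≠ X`
which is mapped into itself by every bounded operator commuting with `S`. -/
def HasNontrivialHyperinvariantSubspace (S : X →L[ℂ] X) : Prop :=
  ∃ M : Submodule ℂ X, IsClosed (M : Set X) ∧ M ≠ ⊥ ∧ M ≠ ⊤ ∧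
    ∀ A : X →L[ℂ] X, A * S = S * A → ∀ x ∈ M, A x ∈ M

/-- The commutant of `S` as a linear subspace of the space of bounded operators. -/
def commutantSubmodule (S : X →L[ℂ] X) : Submodule ℂ (X →L[ℂ] X) where
  carrier := {A | A * S = S * A}
  add_mem' := by
    intro A B hA hB
    simp only [Set.mem_ofPred_eq] at *
    rw [add_mul, mul_add, hA, hB]
  zero_mem' := by simp
  smul_mem' := by
    intro c A hA
    simp only [Set.mem_ofPred_eq] at *
    rw [smul_mul_assoc, mul_smul_comm, hA]

theorem mem_commutantSubmodule {S A : X →L[ℂ] X} : A ∈ commutantSubmodule S ↔ A * S = S * A :=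
  Iff.rfl

/-- A linear manifold invariant under the commutant is `0` or dense, when there is no nontrivial
hyperinvariant subspace. -/
theorem closure_eq_top_of_invariant {S : X →L[ℂ] X}
    (h : ¬ HasNontrivialHyperinvariantSubspace S) (N : Submodule ℂ X)
    (hN : ∀ A : X →L[ℂ] X, A * S = S * A → ∀ x ∈ N, A x ∈ N) (hne : N ≠ ⊥) :
    N.topologicalClosure = ⊤ := by
  by_contra htop
  apply h
  refine ⟨N.topologicalClosure, N.isClosed_topologicalClosure, ?_, htop, ?_⟩
  · intro hbot
    apply hne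
    rw [eq_bot_iff, ← hbot]
    exact N.le_topologicalClosure
  · intro A hA x hx
    have hmaps : Set.MapsTo A (N : Set X) (N : Set X) := fun y hy => hN A hA y hy
    have := hmaps.closure A.continuous
    exact this hx

theorem ker_eq_bot_of_not {S : X →L[ℂ] X} (h : ¬ HasNontrivialHyperinvariantSubspace S)
    (hS : ∀ c : ℂ, S ≠ c • ContinuousLinearMap.id ℂ X) : ∀ x : X, S x = 0 → x = 0 := by
  intro x hx
  by_contra hx0
  apply h
  refine ⟨LinearMap.ker (S : X →ₗ[ℂ] X), S.isClosed_ker, ?_, ?_, ?_⟩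
  · intro hbot
    apply hx0
    have : x ∈ (LinearMap.ker (S : X →ₗ[ℂ] X)) := by simpa using hx
    rw [hbot] at this
    simpa using this
  · intro htop
    apply hS 0
    ext y
    have : y ∈ (LinearMap.ker (S : X →ₗ[ℂ] X)) := by rw [htop]; trivial
    simpa using this
  · intro A hA y hy
    have hy' : S y = 0 := by simpa using hy
    have : S (A y) = A (S y) := by
      have := congrArg (fun T : X →L[ℂ] X => T y) hA
      simpa using this.symm
    simp [this, hy']

/-- Transitivity of the ideal `S {S}'`. -/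
theorem exists_commutant_approx {S : X →L[ℂ] X} (h : ¬ HasNontrivialHyperinvariantSubspace S)
    (hS : ∀ c : ℂ, S ≠ c • ContinuousLinearMap.id ℂ X) {y : X} (hy : y ≠ 0) (v : X) {ε : ℝ}
    (hε : 0 < ε) : ∃ A : X →L[ℂ] X, A * S = S * A ∧ ‖S (A y) - v‖ < ε := by
  classical
  let ev : (X →L[ℂ] X) →ₗ[ℂ] X :=
    { toFun := fun A => S (A y)
      map_add' := by intro A B; simp
      map_smul' := by intro c A; simp }
  let N : Submodule ℂ X := (commutantSubmodule S).map ev
  have hN : ∀ A : X →L[ℂ] X, A * S = S * A → ∀ x ∈ N, A x ∈ N := by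
    intro B hB x hx
    obtain ⟨A, hA, rfl⟩ := hx
    refine ⟨B * A, ?_, ?_⟩
    · show B * A * S = S * (B * A)
      have hA' : A * S = S * A := hA
      rw [mul_assoc, hA', ← mul_assoc, hB, mul_assoc]
    · show S ((B * A) y) = B (S (A y))
      have : S (B (A y)) = B (S (A y)) := by
        have := congrArg (fun T : X →L[ℂ] X => T (A y)) hB
        simpa using this.symm
      simpa using this
  have hne : N ≠ ⊥ := by
    intro hbot
    have h1 : S y ∈ N := ⟨1, by show (1 : X →L[ℂ] X) * S = S * 1; simp, by simp [ev]⟩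
    rw [hbot] at h1
    exact hy (ker_eq_bot_of_not h hS y (by simpa using h1))
  have htop := closure_eq_top_of_invariant h N hN hne
  have hv : v ∈ N.topologicalClosure := by rw [htop]; trivial
  have hv' : v ∈ closure (N : Set X) := hv
  obtain ⟨b, hb, hbv⟩ := Metric.mem_closure_iff.mp hv' ε hε
  obtain ⟨A, hA, rfl⟩ := hb
  refine ⟨A, hA, ?_⟩
  rw [dist_eq_norm, norm_sub_rev] at hbv
  exact hbv

section Reflexive

/-- Weak limits along ultrafilters of bounded families in a reflexive space. -/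
theorem exists_weak_ulim (hrefl : Function.Surjective (NormedSpace.inclusionInDoubleDual ℂ X))
    {ι : Type*} (U : Ultrafilter ι) (x : ι → X) (C : ℝ) (hC : ∀ i, ‖x i‖ ≤ C) :
    ∃ y : X, ‖y‖ ≤ C ∧ ∀ f : StrongDual ℂ X, Tendsto (fun i => f (x i)) U (𝓝 (f y)) := by
  classical
  have hex : ∀ f : StrongDual ℂ X, ∃ l : ℂ, ‖l‖ ≤ C * ‖f‖ ∧
      Tendsto (fun i => f (x i)) U (𝓝 l) := by
    intro f
    have hb : ∀ i, f (x i) ∈ Metric.closedBall (0 : ℂ) (C * ‖f‖) := by
      intro i
      rw [mem_closedBall_zero_iff]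
      calc ‖f (x i)‖ ≤ ‖f‖ * ‖x i‖ := f.le_opNorm _
        _ ≤ ‖f‖ * C := by gcongr; exact hC i
        _ = C * ‖f‖ := mul_comm _ _
    have hcomp : IsCompact (Metric.closedBall (0 : ℂ) (C * ‖f‖)) := isCompact_closedBall _ _
    have hle : ((U.map (fun i => f (x i)) : Ultrafilter ℂ) : Filter ℂ) ≤
        𝓟 (Metric.closedBall (0 : ℂ) (C * ‖f‖)) := by
      rw [le_principal_iff]
      exact Filter.mem_map.mpr (Filter.mem_of_superset Filter.univ_mem (fun i _ => hb i))
    obtain ⟨l, hl, hlim⟩ := hcomp.ultrafilter_le_nhds _ hle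
    refine ⟨l, by simpa using hl, ?_⟩
    exact hlim
  choose L hL1 hL2 using hex
  have hadd : ∀ f g : StrongDual ℂ X, L (f + g) = L f + L g := by
    intro f g
    refine tendsto_nhds_unique (hL2 (f + g)) ?_
    have := (hL2 f).add (hL2 g)
    simpa using this
  have hsmul : ∀ (c : ℂ) (f : StrongDual ℂ X), L (c • f) = c • L f := by
    intro c f
    refine tendsto_nhds_unique (hL2 (c • f)) ?_
    have := (hL2 f).const_smul c
    simpa using this
  let Φ0 : StrongDual ℂ X →ₗ[ℂ] ℂ :=
    { toFun := L, map_add' := hadd, map_smul' := hsmul }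
  let Φ : StrongDual ℂ (StrongDual ℂ X) := Φ0.mkContinuous C (fun f => hL1 f)
  obtain ⟨y, hy⟩ := hrefl Φ
  have hfy : ∀ f : StrongDual ℂ X, f y = L f := by
    intro f
    have := congrArg (fun G : StrongDual ℂ (StrongDual ℂ X) => G f) hy
    simpa [Φ, Φ0] using this
  refine ⟨y, ?_, fun f => by rw [hfy f]; exact hL2 f⟩
  by_cases hy0 : y = 0
  · subst hy0
    obtain ⟨i⟩ : Nonempty ι := U.neBot.nonempty
    simpa using (norm_nonneg (x i)).trans (hC i)
  · obtain ⟨g, hg1, hg2⟩ := exists_dual_vector ℂ y (norm_ne_zero_iff.mpr hy0)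
    have h1 : ‖(g y : ℂ)‖ ≤ C * ‖g‖ := by rw [hfy g]; exact hL1 g
    rw [hg2, hg1, mul_one] at h1
    simpa using h1

/-- Functionals separate points. -/
theorem eq_of_forall_dual_eq {x y : X} (h : ∀ f : StrongDual ℂ X, f x = f y) : x = y := by
  by_contra hne
  have hne' : x - y ≠ 0 := sub_ne_zero.mpr hne
  obtain ⟨g, _, hg⟩ := exists_dual_vector ℂ (x - y) (norm_ne_zero_iff.mpr hne')
  have : g (x - y) = 0 := by rw [map_sub, h g, sub_self]
  rw [this] at hg
  have : (‖x - y‖ : ℂ) = 0 := by simpa using hg.symm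
  simp at this
  exact hne' this

/-- Weak limits of operators along ultrafilters on a reflexive space. -/
theorem exists_weak_ulim_operator
    (hrefl : Function.Surjective (NormedSpace.inclusionInDoubleDual ℂ X))
    {ι : Type*} (U : Ultrafilter ι) (A : ι → X →L[ℂ] X) (C : ℝ) (hC : ∀ i, ‖A i‖ ≤ C) :
    ∃ B : X →L[ℂ] X, ‖B‖ ≤ C ∧ ∀ (x : X) (f : StrongDual ℂ X),
      Tendsto (fun i => f (A i x)) U (𝓝 (f (B x))) := by
  classical
  have hC0 : 0 ≤ C := by
    obtain ⟨i⟩ : Nonempty ι := U.neBot.nonempty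
    exact (norm_nonneg (A i)).trans (hC i)
  have hex : ∀ x : X, ∃ y : X, ‖y‖ ≤ C * ‖x‖ ∧
      ∀ f : StrongDual ℂ X, Tendsto (fun i => f (A i x)) U (𝓝 (f y)) := by
    intro x
    exact exists_weak_ulim hrefl U (fun i => A i x) (C * ‖x‖)
      (fun i => (A i).le_of_opNorm_le (hC i) x)
  choose L hL1 hL2 using hex
  have hadd : ∀ x y : X, L (x + y) = L x + L y := by
    intro x y
    apply eq_of_forall_dual_eq
    intro f
    refine tendsto_nhds_unique (hL2 (x + y) f) ?_
    have := (hL2 x f).add (hL2 y f)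
    simpa using this
  have hsmul : ∀ (c : ℂ) (x : X), L (c • x) = c • L x := by
    intro c x
    apply eq_of_forall_dual_eq
    intro f
    refine tendsto_nhds_unique (hL2 (c • x) f) ?_
    have := (hL2 x f).const_smul c
    simpa using this
  let Φ0 : X →ₗ[ℂ] X := { toFun := L, map_add' := hadd, map_smul' := hsmul }
  refine ⟨Φ0.mkContinuous C (fun x => hL1 x), Φ0.mkContinuous_norm_le hC0 _, ?_⟩
  intro x f
  simpa [Φ0] using hL2 x f

end Reflexive

end Pool.Agent.Lib_helper15
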