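import Mathlib

/-!
Burnside's theorem: a linear space of endomorphisms of a finite dimensional vector space over an
algebraically closed field which is closed under products and acts transitively is everything.
-/

set_option autoImplicit false

namespace Pool.Agent.Lib_helper15

variable {K F : Type*} [Field K] [IsAlgClosed K] [AddCommGroup F] [Module K F]
  [FiniteDimensional K F]

/-- Burnside's theorem (not assuming that the algebra is unital). -/
theorem burnside (B : Submodule K (Module.End K F)) (hmul : ∀ a ∈ B, ∀ b ∈ B, a * b ∈ B)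
    (htrans : ∀ x : F, x ≠ 0 → ∀ y : F, ∃ b ∈ B, b x = y) : B = ⊤ := by
  classical
  by_cases hF : ∀ x : F, x = 0
  · rw [eq_top_iff]
    intro a _
    have : a = 0 := by ext x; exact hF _
    rw [this]; exact B.zero_mem
  push Not at hF
  obtain ⟨x₀, hx₀⟩ := hF
  -- a nonzero element of minimal rank
  have hex : ∃ n : ℕ, ∃ b ∈ B, b ≠ 0 ∧ Module.finrank K (LinearMap.range b) = n := by
    obtain ⟨b, hb, hbx⟩ := htrans x₀ hx₀ x₀
    refine ⟨_, b, hb, ?_, rfl⟩
    rintro rfl
    exact hx₀ (by simpa using hbx.symm)
  obtain ⟨b, hbB, hb0, hbn⟩ := Nat.find_spec hex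
  have hmin : ∀ c ∈ B, c ≠ 0 → Module.finrank K (LinearMap.range b) ≤
      Module.finrank K (LinearMap.range c) := by
    intro c hc hc0
    rw [hbn]
    exact Nat.find_min' hex ⟨c, hc, hc0, rfl⟩
  -- b has rank one
  obtain ⟨x₁, hx₁⟩ : ∃ x, b x ≠ 0 := by
    by_contra hcon
    push Not at hcon
    exact hb0 (by ext x; simpa using hcon x)
  have hrank1 : ∀ x₂ : F, ∃ a : K, b x₂ = a • b x₁ := by
    intro x₂
    by_contra hcon
    push Not at hcon
    obtain ⟨c, hcB, hc⟩ := htrans (b x₁) hx₁ x₂
    -- restrict b * c to the range of b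
    let R := LinearMap.range b
    have hmaps : ∀ y ∈ R, (b * c) y ∈ R := fun y _ => ⟨c y, rfl⟩
    let g : Module.End K R := (b * c).restrict hmaps
    have hRnt : Nontrivial R := by
      refine ⟨⟨⟨b x₁, ⟨x₁, rfl⟩⟩, 0, ?_⟩⟩
      intro h
      apply hx₁
      have := congrArg Subtype.val h
      simpa using this
    obtain ⟨a, ha⟩ := Module.End.exists_eigenvalue g
    obtain ⟨v, hv⟩ := ha.exists_hasEigenvector
    have hv1 : g v = a • v := hv.apply_eq_smul
    have hv0 : v ≠ 0 := hv.2
    -- the element b c b - a b
    set d : Module.End K F := b * c * b - a • b with hd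
    have hdB : d ∈ B := B.sub_mem (hmul _ (hmul _ hbB _ hcB) _ hbB) (B.smul_mem _ hbB)
    have hd0 : d ≠ 0 := by
      intro h0
      have h1 : d x₁ = 0 := by rw [h0]; rfl
      have h2 : b x₂ - a • b x₁ = 0 := by
        have : d x₁ = b (c (b x₁)) - a • b x₁ := by simp [hd]
        rw [this, hc] at h1
        exact h1
      exact hcon a (sub_eq_zero.mp h2)
    -- d = (g - a) ∘ b, so the rank drops
    have hrange : LinearMap.range d ≤ (LinearMap.range (g - a • (1 : Module.End K R))).map
        R.subtype := by
      rintro _ ⟨x, rfl⟩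
      refine ⟨(g - a • (1 : Module.End K R)) ⟨b x, ⟨x, rfl⟩⟩, ⟨_, rfl⟩, ?_⟩
      simp [g, hd]
    have hlt : Module.finrank K (LinearMap.range (g - a • (1 : Module.End K R))) <
        Module.finrank K R := by
      have h1 := LinearMap.finrank_range_add_finrank_ker (g - a • (1 : Module.End K R))
      have h2 : 0 < Module.finrank K (LinearMap.ker (g - a • (1 : Module.End K R))) := by
        rw [Module.finrank_pos_iff_exists_ne_zero]
        refine ⟨⟨v, ?_⟩, ?_⟩
        · simp [hv1]
        · intro h
          apply hv0
          exact congrArg Subtype.val h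
      omega
    have h3 : Module.finrank K (LinearMap.range d) ≤
        Module.finrank K (LinearMap.range (g - a • (1 : Module.End K R))) := by
      calc Module.finrank K (LinearMap.range d) ≤ Module.finrank K
            ((LinearMap.range (g - a • (1 : Module.End K R))).map R.subtype) :=
            Submodule.finrank_mono hrange
        _ ≤ _ := Submodule.finrank_map_le _ _
    have h4 := hmin d hdB hd0
    have h5 : Module.finrank K (LinearMap.range (g - a • (1 : Module.End K R))) <
        Module.finrank K (LinearMap.range b) := hlt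
    omega
  choose φ hφ using hrank1
  -- φ is linear
  have hφadd : ∀ x y, φ (x + y) = φ x + φ y := by
    intro x y
    have h1 : φ (x + y) • b x₁ = (φ x + φ y) • b x₁ := by
      rw [← hφ, add_smul, ← hφ, ← hφ, map_add]
    exact smul_left_injective K hx₁ h1
  have hφsmul : ∀ (a : K) x, φ (a • x) = a * φ x := by
    intro a x
    have h1 : φ (a • x) • b x₁ = (a * φ x) • b x₁ := by
      rw [← hφ, mul_smul, ← hφ, map_smul]
    exact smul_left_injective K hx₁ h1
  let φL : Module.Dual K F :=
    { toFun := φ, map_add' := hφadd, map_smul' := fun a x => hφsmul a x }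
  have hφx₁ : φ x₁ = 1 := by
    have h1 : φ x₁ • b x₁ = (1 : K) • b x₁ := by rw [← hφ, one_smul]
    exact smul_left_injective K hx₁ h1
  -- rank one operators  φ(·) w  are in B
  have hright : ∀ w : F, φL.smulRight w ∈ B := by
    intro w
    obtain ⟨c, hcB, hc⟩ := htrans (b x₁) hx₁ w
    have : φL.smulRight w = c * b := by
      ext x
      show φ x • w = c (b x)
      rw [hφ x, map_smul, hc]
    rw [this]
    exact hmul _ hcB _ hbB
  -- functionals φ ∘ c, c ∈ B, are all functionals
  let compL : (Module.End K F) →ₗ[K] (Module.Dual K F) :=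
    { toFun := fun c => φL.comp c
      map_add' := fun c d => LinearMap.comp_add _ _ _
      map_smul' := fun a c => by
        ext x
        show φL ((a • c) x) = a * φL (c x)
        rw [LinearMap.smul_apply, map_smul, smul_eq_mul] }
  let D : Submodule K (Module.Dual K F) := B.map compL
  have hDtop : D = ⊤ := by
    by_contra hD
    obtain ⟨x, hx0, hx⟩ : ∃ x : F, x ≠ 0 ∧ ∀ ψ ∈ D, ψ x = 0 := by
      have hlt : D < ⊤ := lt_top_iff_ne_top.mpr hD
      have hfin : Module.finrank K D < Module.finrank K (Module.Dual K F) :=
        Submodule.finrank_lt hD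
      have h1 := Subspace.finrank_add_finrank_dualCoannihilator_eq D
      have h2 : Module.finrank K (Module.Dual K F) = Module.finrank K F :=
        Subspace.dual_finrank_eq
      have h3 : 0 < Module.finrank K D.dualCoannihilator := by omega
      rw [Module.finrank_pos_iff_exists_ne_zero] at h3
      obtain ⟨x, hx⟩ := h3
      refine ⟨x, fun h => hx (Subtype.ext h), ?_⟩
      intro ψ hψ
      exact (Submodule.mem_dualCoannihilator (x : F)).mp x.2 ψ hψ
    obtain ⟨c, hcB, hc⟩ := htrans x hx0 x₁
    have := hx (φL.comp c) ⟨c, hcB, rfl⟩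
    have h1 : φ (c x) = 0 := this
    rw [hc, hφx₁] at h1
    exact one_ne_zero h1
  -- all rank one operators are in B
  have hall : ∀ (ψ : Module.Dual K F) (w : F), ψ.smulRight w ∈ B := by
    intro ψ w
    have : ψ ∈ D := by rw [hDtop]; trivial
    obtain ⟨c, hcB, hc⟩ := this
    have h1 : ψ.smulRight w = (φL.smulRight w) * c := by
      ext x
      rw [← hc]
      rfl
    rw [h1]
    exact hmul _ (hright w) _ hcB
  -- conclude
  rw [eq_top_iff]
  intro a _
  let bas := Module.finBasis K F
  have ha : a = ∑ i, (bas.coord i).smulRight (a (bas i)) := by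
    ext x
    rw [LinearMap.sum_apply]
    conv_lhs => rw [← bas.sum_repr x, map_sum]
    apply Finset.sum_congr rfl
    intro i _
    rw [map_smul]
    rfl
  rw [ha]
  exact B.sum_mem (fun i _ => hall _ _)

end Pool.Agent.Lib_helper15
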