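import Pool.Agent.Lib_helper15.Homog

/-!
The dichotomy theorem for operators commuting up to a factor with a power bounded operator having
a unimodular eigenvalue of finite multiplicity (helper15).
-/

set_option autoImplicit false

open Filter Topology

namespace Pool.Agent.Lib_helper15

variable {X : Type*} [NormedAddCommGroup X] [NormedSpace ℂ X]

/-- The eigenspace of a bounded operator. -/
abbrev eigSp (T : X →L[ℂ] X) (mu : ℂ) : Submodule ℂ X :=
  Module.End.eigenspace (T : X →ₗ[ℂ] X) mu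

theorem mem_eigSp {T : X →L[ℂ] X} {mu : ℂ} {x : X} : x ∈ eigSp T mu ↔ T x = mu • x := by
  rw [eigSp, Module.End.mem_eigenspace_iff]
  rfl

variable (hrefl : Function.Surjective (NormedSpace.inclusionInDoubleDual ℂ X))
  {S T : X →L[ℂ] X} {lam mu : ℂ} {C : ℝ}

/-- If `S` has no nontrivial hyperinvariant subspace then `|lam| = 1`. -/
theorem norm_lam_eq_one (hS : ∀ c : ℂ, S ≠ c • ContinuousLinearMap.id ℂ X)
    (h : ¬ HasNontrivialHyperinvariantSubspace S)
    (hrefl : Function.Surjective (NormedSpace.inclusionInDoubleDual ℂ X))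
    (hTS : T * S = lam • (S * T)) (hT : ∀ n : ℕ, ‖T ^ n‖ ≤ C) (hmu : ‖mu‖ = 1)
    {x : X} (hx0 : x ≠ 0) (hx : T x = mu • x) : ‖lam‖ = 1 := by
  have hC0 : 0 ≤ C := (norm_nonneg _).trans (hT 0)
  rcases lt_trichotomy ‖lam‖ 1 with hlt | heq | hgt
  · exfalso
    -- the ergodic projection kills the range of `S`
    set P := ergProj hrefl hT mu hmu with hP
    have hkill : ∀ v : X, P (S v) = 0 := by
      intro v
      have h1 : ∀ n : ℕ, ‖P (S v)‖ ≤ ‖lam‖ ^ n * (C * (‖S‖ * (C * ‖v‖))) := by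
        intro n
        have h2 : P ((T ^ n) (S v)) = mu ^ n • P (S v) := by
          have h3 : ∀ (m : ℕ) (w : X), P ((T ^ m) w) = mu ^ m • P w := by
            intro m
            induction m with
            | zero => intro w; simp
            | succ m ih =>
              intro w
              have : (T ^ (m + 1)) w = T ((T ^ m) w) := by rw [pow_succ']; rfl
              rw [this, hP, ergProj_T, ← hP, ih, smul_smul, pow_succ']
          exact h3 n _
        have h4 : P ((T ^ n) (S v)) = lam ^ n • P (S ((T ^ n) v)) := by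
          rw [skew_pow hTS, map_smul]
        have h5 : ‖P (S v)‖ = ‖P ((T ^ n) (S v))‖ := by
          rw [h2, norm_smul, norm_pow, hmu, one_pow, one_mul]
        rw [h5, h4, norm_smul, norm_pow]
        gcongr
        calc ‖P (S ((T ^ n) v))‖ ≤ C * ‖S ((T ^ n) v)‖ :=
              P.le_of_opNorm_le (ergProj_norm hrefl hT mu hmu) _
          _ ≤ C * (‖S‖ * ‖(T ^ n) v‖) := by gcongr; exact S.le_opNorm _
          _ ≤ C * (‖S‖ * (C * ‖v‖)) := by
              gcongr
              exact (T ^ n).le_of_opNorm_le (hT n) v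
      have hlim : Tendsto (fun n : ℕ => ‖lam‖ ^ n * (C * (‖S‖ * (C * ‖v‖)))) atTop (𝓝 0) := by
        have := (tendsto_pow_atTop_nhds_zero_of_lt_one (norm_nonneg lam) hlt).mul_const
          (C * (‖S‖ * (C * ‖v‖)))
        simpa using this
      have h6 : ‖P (S v)‖ ≤ 0 := ge_of_tendsto' hlim h1
      exact norm_le_zero_iff.mp h6
    -- but the range of `S` is dense
    have hx1 : P x = x := ergProj_eig hrefl hT mu hmu hx
    have hxpos : 0 < ‖x‖ := norm_pos_iff.mpr hx0
    obtain ⟨A, hA, hAx⟩ := exists_commutant_approx h hS hx0 x (ε := ‖x‖ / (C + 1)) (by positivity)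
    have h7 : ‖x‖ ≤ C * (‖x‖ / (C + 1)) := by
      calc ‖x‖ = ‖P (S (A x) - x)‖ := by rw [map_sub, hkill, hx1, zero_sub, norm_neg]
        _ ≤ C * ‖S (A x) - x‖ := P.le_of_opNorm_le (ergProj_norm hrefl hT mu hmu) _
        _ ≤ C * (‖x‖ / (C + 1)) := by gcongr
    have h8 : C * (‖x‖ / (C + 1)) < ‖x‖ := by
      rw [← mul_div_assoc, div_lt_iff₀ (by positivity)]
      nlinarith
    linarith
  · exact heq
  · exfalso
    have h1 : ∀ n : ℕ, ‖lam‖ ^ n * ‖S x‖ ≤ C * ‖S x‖ := by
      intro n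
      have h2 : (T ^ n) (S x) = lam ^ n • (mu ^ n • S x) := by
        rw [skew_pow hTS, eig_pow hx, map_smul]
      calc ‖lam‖ ^ n * ‖S x‖ = ‖(T ^ n) (S x)‖ := by
            rw [h2, norm_smul, norm_smul, norm_pow, norm_pow, hmu, one_pow, one_mul]
        _ ≤ C * ‖S x‖ := (T ^ n).le_of_opNorm_le (hT n) _
    have hSx : 0 < ‖S x‖ := by
      rw [norm_pos_iff]
      intro h0
      exact hx0 (ker_eq_bot_of_not h hS x h0)
    have h2 : ∀ n : ℕ, ‖lam‖ ^ n ≤ C := fun n => le_of_mul_le_mul_right (h1 n) hSx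
    obtain ⟨n, hn⟩ := pow_unbounded_of_one_lt C hgt
    linarith [h2 n]

/-- Roots of unity are excluded as well. -/
theorem lam_not_root (hS : ∀ c : ℂ, S ≠ c • ContinuousLinearMap.id ℂ X)
    (h : ¬ HasNontrivialHyperinvariantSubspace S)
    (hTS : T * S = lam • (S * T)) (hfin : FiniteDimensional ℂ (eigSp T mu))
    (hne : eigSp T mu ≠ ⊥) : ∀ m : ℕ, 0 < m → lam ^ m ≠ 1 := by
  classical
  intro m hm hroot
  apply h
  -- the finite dimensional invariant subspace
  let G : Submodule ℂ X := ⨆ j : Fin m, (eigSp T mu).map ((S ^ (j : ℕ) : X →L[ℂ] X) : X →ₗ[ℂ] X)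
  have hGfin : FiniteDimensional ℂ G := by
    apply Submodule.finiteDimensional_iSup
  have hFG : eigSp T mu ≤ G := by
    refine le_trans ?_ (le_iSup (fun j : Fin m =>
      (eigSp T mu).map ((S ^ (j : ℕ) : X →L[ℂ] X) : X →ₗ[ℂ] X)) ⟨0, hm⟩)
    intro x hx
    exact ⟨x, hx, by simp⟩
  have hSm : ∀ x ∈ eigSp T mu, (S ^ m) x ∈ eigSp T mu := by
    intro x hx
    rw [mem_eigSp] at hx ⊢
    rw [skew_pow_right hTS, hroot, one_smul, hx, map_smul]
  have hmaps : ∀ x ∈ G, S x ∈ G := by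
    intro x hx
    have hle : G ≤ G.comap (S : X →ₗ[ℂ] X) := by
      apply iSup_le
      rintro ⟨j, hj⟩
      rintro _ ⟨y, hy, rfl⟩
      show S ((S ^ j) y) ∈ G
      have h1 : S ((S ^ j) y) = (S ^ (j + 1)) y := by rw [pow_succ']; rfl
      rw [h1]
      by_cases hj1 : j + 1 < m
      · exact (le_iSup (fun j : Fin m =>
          (eigSp T mu).map ((S ^ (j : ℕ) : X →L[ℂ] X) : X →ₗ[ℂ] X)) ⟨j + 1, hj1⟩) ⟨y, hy, rfl⟩
      · have hj2 : j + 1 = m := by omega
        rw [hj2]
        exact hFG (hSm y hy)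
    exact hle hx
  have hGnt : Nontrivial G := by
    obtain ⟨x, hx, hx0⟩ := (Submodule.ne_bot_iff _).mp hne
    exact ⟨⟨⟨x, hFG hx⟩, 0, fun h0 => hx0 (congrArg Subtype.val h0)⟩⟩
  let g : Module.End ℂ G := (S : X →ₗ[ℂ] X).restrict hmaps
  obtain ⟨a, ha⟩ := Module.End.exists_eigenvalue g
  obtain ⟨v, hv⟩ := ha.exists_hasEigenvector
  have hv1 : g v = a • v := hv.apply_eq_smul
  have hv0 : (v : X) ≠ 0 := fun h0 => hv.2 (Subtype.ext h0)
  exact hasNHS_of_eigenvector hS hv0 (c := a) (by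
    have := congrArg Subtype.val hv1
    exact this)

/-- `B_k`: endomorphisms of the eigenspace of the form `S^k A`, `A` in the commutant. -/
def blockSet (S T : X →L[ℂ] X) (mu : ℂ) (k : ℕ) : Submodule ℂ (Module.End ℂ (eigSp T mu)) where
  carrier := {b | ∃ A : X →L[ℂ] X, A * S = S * A ∧
    ∀ x : eigSp T mu, (S ^ k) (A (x : X)) = ((b x : eigSp T mu) : X)}
  add_mem' := by
    rintro b b' ⟨A, hA, hAb⟩ ⟨A', hA', hAb'⟩
    refine ⟨A + A', ?_, fun x => ?_⟩
    · rw [add_mul, mul_add, hA, hA']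
    · rw [add_apply, map_add, hAb x, hAb' x]
      rfl
  zero_mem' := ⟨0, by simp, fun x => by rw [zero_apply, map_zero]; rfl⟩
  smul_mem' := by
    rintro c b ⟨A, hA, hAb⟩
    refine ⟨c • A, ?_, fun x => ?_⟩
    · rw [smul_mul_assoc, mul_smul_comm, hA]
    · rw [smul_apply, map_smul, hAb x]
      rfl

theorem mem_blockSet {k : ℕ} {b : Module.End ℂ (eigSp T mu)} :
    b ∈ blockSet S T mu k ↔ ∃ A : X →L[ℂ] X, A * S = S * A ∧
      ∀ x : eigSp T mu, (S ^ k) (A (x : X)) = ((b x : eigSp T mu) : X) := Iff.rfl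

theorem blockSet_succ_le (k : ℕ) : blockSet S T mu (k + 1) ≤ blockSet S T mu k := by
  rintro b ⟨A, hA, hAb⟩
  refine ⟨S * A, ?_, fun x => ?_⟩
  · rw [mul_assoc, hA]
  · rw [← hAb x, pow_succ]
    rfl

theorem blockSet_antitone : Antitone (blockSet S T mu) :=
  antitone_nat_of_succ_le blockSet_succ_le

theorem blockSet_mul {j k : ℕ} {b b' : Module.End ℂ (eigSp T mu)}
    (hb : b ∈ blockSet S T mu j) (hb' : b' ∈ blockSet S T mu k) :
    b * b' ∈ blockSet S T mu (j + k) := by
  obtain ⟨A, hA, hAb⟩ := hb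
  obtain ⟨A', hA', hAb'⟩ := hb'
  refine ⟨A * A', ?_, fun x => ?_⟩
  · rw [mul_assoc, hA', ← mul_assoc, hA, mul_assoc]
  · have h1 : (S ^ (j + k)) ((A * A') (x : X)) = (S ^ j) ((S ^ k) (A (A' (x : X)))) := by
      rw [pow_add]; rfl
    rw [h1, ← comm_pow_apply hA, hAb' x, hAb (b' x)]
    rfl

include hrefl in
theorem blockSet_transitive (hS : ∀ c : ℂ, S ≠ c • ContinuousLinearMap.id ℂ X)
    (h : ¬ HasNontrivialHyperinvariantSubspace S)
    (hTS : T * S = lam • (S * T)) (hT : ∀ n : ℕ, ‖T ^ n‖ ≤ C) (hmu : ‖mu‖ = 1)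
    (hlam : ‖lam‖ = 1) (hfin : FiniteDimensional ℂ (eigSp T mu)) (k : ℕ)
    (x : eigSp T mu) (hx : x ≠ 0) (y : eigSp T mu) : ∃ b ∈ blockSet S T mu k, b x = y := by
  classical
  have hC0 : 0 ≤ C := (norm_nonneg _).trans (hT 0)
  have hlam0 : lam ≠ 0 := by intro h; rw [h] at hlam; simp at hlam
  let ev : Module.End ℂ (eigSp T mu) →ₗ[ℂ] eigSp T mu :=
    { toFun := fun b => b x
      map_add' := fun _ _ => rfl
      map_smul' := fun _ _ => rfl }
  let N : Submodule ℂ (eigSp T mu) := (blockSet S T mu k).map ev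
  have hNclosed : IsClosed (N : Set (eigSp T mu)) := N.closed_of_finiteDimensional
  have hy : y ∈ closure (N : Set (eigSp T mu)) := by
    rw [Metric.mem_closure_iff]
    intro ε hε
    obtain ⟨A, hA, hAx⟩ := exists_commutant_approx_pow h hS k
      (y := (x : X)) (fun h0 => hx (Subtype.ext h0)) (y : X) (ε := ε / (C + 1)) (by positivity)
    set ν : ℂ := mu * (lam ^ k)⁻¹ with hν
    have hν1 : ‖ν‖ = 1 := by simp [hν, hmu, hlam]
    have hσ1 : ‖lam ^ k‖ = 1 := by simp [hlam]
    have hνσ : ν * lam ^ k = mu := by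
      rw [hν, mul_assoc, inv_mul_cancel₀ (pow_ne_zero k hlam0), mul_one]
    let A' := homog hrefl hT A (lam ^ k) hσ1
    have hA' : A' * S = S * A' := homog_comm hrefl hTS hT hlam hA _ _
    have hkey : ∀ z : X, T z = mu • z → (S ^ k) (A' z) = ergProj hrefl hT mu hmu ((S ^ k) (A z)) := by
      intro z hz
      rw [ergProj_S_pow hrefl hTS hT hlam k mu ν hmu hν1 hνσ.symm,
        ← homog_eig hrefl hT hmu A (lam ^ k) hσ1 ν hν1 hνσ hz]
    have hmem : ∀ z : eigSp T mu, (S ^ k) (A' (z : X)) ∈ eigSp T mu := by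
      intro z
      rw [hkey _ (mem_eigSp.mp z.2), mem_eigSp]
      exact T_ergProj hrefl hT mu hmu _
    let b : Module.End ℂ (eigSp T mu) :=
      { toFun := fun z => ⟨(S ^ k) (A' (z : X)), hmem z⟩
        map_add' := fun u v => by ext; simp
        map_smul' := fun c u => by ext; simp }
    have hb : b ∈ blockSet S T mu k := ⟨A', hA', fun z => rfl⟩
    refine ⟨b x, ⟨b, hb, rfl⟩, ?_⟩
    rw [dist_comm, dist_eq_norm]
    have h1 : ((b x - y : eigSp T mu) : X) =
        ergProj hrefl hT mu hmu ((S ^ k) (A (x : X)) - (y : X)) := by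
      rw [map_sub, ergProj_eig hrefl hT mu hmu (mem_eigSp.mp y.2),
        ← hkey _ (mem_eigSp.mp x.2)]
      rfl
    calc ‖b x - y‖ = ‖((b x - y : eigSp T mu) : X)‖ := rfl
      _ = ‖ergProj hrefl hT mu hmu ((S ^ k) (A (x : X)) - (y : X))‖ := by rw [h1]
      _ ≤ C * ‖(S ^ k) (A (x : X)) - (y : X)‖ :=
          ContinuousLinearMap.le_of_opNorm_le _ (ergProj_norm hrefl hT mu hmu) _
      _ ≤ C * (ε / (C + 1)) := by gcongr
      _ < ε := by
          rw [← mul_div_assoc, div_lt_iff₀ (by positivity)]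
          nlinarith
  rw [hNclosed.closure_eq] at hy
  obtain ⟨b, hb, hby⟩ := hy
  exact ⟨b, hb, hby⟩

include hrefl in
theorem blockSet_eq_top (hS : ∀ c : ℂ, S ≠ c • ContinuousLinearMap.id ℂ X)
    (h : ¬ HasNontrivialHyperinvariantSubspace S)
    (hTS : T * S = lam • (S * T)) (hT : ∀ n : ℕ, ‖T ^ n‖ ≤ C) (hmu : ‖mu‖ = 1)
    (hlam : ‖lam‖ = 1) (hfin : FiniteDimensional ℂ (eigSp T mu)) (k : ℕ) :
    blockSet S T mu k = ⊤ := by
  classical
  let f : ℕ →o (Submodule ℂ (Module.End ℂ (eigSp T mu)))ᵒᵈ :=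
    ⟨fun n => OrderDual.toDual (blockSet S T mu n), fun a b hab => blockSet_antitone hab⟩
  obtain ⟨k₀, hk₀⟩ := IsArtinian.monotone_stabilizes f
  have hk₀' : ∀ m, k₀ ≤ m → blockSet S T mu k₀ = blockSet S T mu m := fun m hm => hk₀ m hm
  have htop : blockSet S T mu k₀ = ⊤ := by
    apply burnside
    · intro a ha b hb
      rw [hk₀' (k₀ + k₀) (by omega)]
      exact blockSet_mul ha hb
    · intro x hx y
      exact blockSet_transitive hrefl hS h hTS hT hmu hlam hfin k₀ x hx y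
  rcases le_total k k₀ with hk | hk
  · rw [eq_top_iff, ← htop]
    exact blockSet_antitone hk
  · rw [← hk₀' k hk, htop]

/-- The dichotomy. -/
theorem finite_multiplicity_dichotomy
    (hrefl : Function.Surjective (NormedSpace.inclusionInDoubleDual ℂ X))
    (S T : X →L[ℂ] X) (hS : ∀ c : ℂ, S ≠ c • ContinuousLinearMap.id ℂ X)
    (lam mu : ℂ) (hTS : T * S = lam • (S * T)) (C : ℝ) (hT : ∀ n : ℕ, ‖T ^ n‖ ≤ C)
    (hmu : ‖mu‖ = 1) (hfin : FiniteDimensional ℂ (eigSp T mu)) (hne : eigSp T mu ≠ ⊥) :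
    HasNontrivialHyperinvariantSubspace S ∨
      (‖lam‖ = 1 ∧ (∀ m : ℕ, 0 < m → lam ^ m ≠ 1) ∧
        (∃ B : X →L[ℂ] X, B * S = S * B ∧ B * T = lam • (T * B) ∧
          ∀ (n : ℤ) (y : X), T y = (mu * lam ^ n) • y → S (B y) = y) ∧
        ∀ L : eigSp T mu →ₗ[ℂ] eigSp T mu, ∃ D : X →L[ℂ] X, D * S = S * D ∧ D * T = T * D ∧
          ∀ x : eigSp T mu, D (x : X) = ((L x : eigSp T mu) : X)) := by
  classical
  by_cases h : HasNontrivialHyperinvariantSubspace S
  · exact Or.inl h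
  right
  have hC0 : 0 ≤ C := (norm_nonneg _).trans (hT 0)
  obtain ⟨x₀, hx₀, hx₀0⟩ := (Submodule.ne_bot_iff _).mp hne
  have hx₀' : T x₀ = mu • x₀ := mem_eigSp.mp hx₀
  have hlam : ‖lam‖ = 1 := norm_lam_eq_one hS h hrefl hTS hT hmu hx₀0 hx₀'
  have hlam0 : lam ≠ 0 := by intro h; rw [h] at hlam; simp at hlam
  have hmu0 : mu ≠ 0 := by intro h; rw [h] at hmu; simp at hmu
  refine ⟨hlam, lam_not_root hS h hTS hfin hne, ?_, ?_⟩
  · -- the operator B
    have h1 : (1 : Module.End ℂ (eigSp T mu)) ∈ blockSet S T mu 1 := by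
      rw [blockSet_eq_top hrefl hS h hTS hT hmu hlam hfin 1]; trivial
    obtain ⟨A, hA, hA1⟩ := h1
    set ν : ℂ := mu * lam⁻¹ with hν
    have hν1 : ‖ν‖ = 1 := by simp [hν, hmu, hlam]
    have hνσ : ν * lam = mu := by rw [hν, mul_assoc, inv_mul_cancel₀ hlam0, mul_one]
    set B := homog hrefl hT A lam hlam with hB
    have hBS : B * S = S * B := homog_comm hrefl hTS hT hlam hA _ _
    have hBT : B * T = lam • (T * B) := by
      rw [hB, homog_T hrefl hT A lam hlam, smul_smul, mul_inv_cancel₀ hlam0, one_smul]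
    have hBF : ∀ x : X, T x = mu • x → S (B x) = x := by
      intro x hx
      rw [hB, homog_eig hrefl hT hmu A lam hlam ν hν1 hνσ hx,
        ← ergProj_S hrefl hTS hT hlam mu ν hmu hν1 hνσ.symm]
      have h2 : S (A x) = x := by
        have := hA1 ⟨x, mem_eigSp.mpr hx⟩
        simpa using this
      rw [h2, ergProj_eig hrefl hT mu hmu hx]
    refine ⟨B, hBS, hBT, ?_⟩
    intro n y hy
    obtain ⟨k, rfl | rfl⟩ := n.eq_nat_or_neg
    · -- nonnegative exponents: y = S^k x
      rw [zpow_natCast] at hy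
      have hν2 : ‖mu * lam ^ k‖ = 1 := by simp [hmu, hlam]
      let N : Submodule ℂ X := (eigSp T mu).map ((S ^ k : X →L[ℂ] X) : X →ₗ[ℂ] X)
      have hNfin : FiniteDimensional ℂ N := inferInstance
      have hNclosed : IsClosed (N : Set X) := N.closed_of_finiteDimensional
      have hyN : y ∈ closure (N : Set X) := by
        rw [Metric.mem_closure_iff]
        intro ε hε
        obtain ⟨A, hA, hAx⟩ := exists_commutant_approx_pow h hS k (y := x₀) hx₀0 y
          (ε := ε / (C + 1)) (by positivity)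
        refine ⟨(S ^ k) (ergProj hrefl hT mu hmu (A x₀)),
          ⟨_, mem_eigSp.mpr (T_ergProj hrefl hT mu hmu _), rfl⟩, ?_⟩
        rw [dist_comm, dist_eq_norm]
        have h3 : (S ^ k) (ergProj hrefl hT mu hmu (A x₀)) - y =
            ergProj hrefl hT (mu * lam ^ k) hν2 ((S ^ k) (A x₀) - y) := by
          rw [map_sub, ergProj_eig hrefl hT (mu * lam ^ k) hν2 hy,
            ergProj_S_pow hrefl hTS hT hlam k (mu * lam ^ k) mu hν2 hmu rfl]
        rw [h3]
        calc ‖ergProj hrefl hT (mu * lam ^ k) hν2 ((S ^ k) (A x₀) - y)‖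
            ≤ C * ‖(S ^ k) (A x₀) - y‖ :=
              ContinuousLinearMap.le_of_opNorm_le _ (ergProj_norm hrefl hT _ hν2) _
          _ ≤ C * (ε / (C + 1)) := by gcongr
          _ < ε := by
              rw [← mul_div_assoc, div_lt_iff₀ (by positivity)]
              nlinarith
      rw [hNclosed.closure_eq] at hyN
      obtain ⟨x, hx, hxy⟩ := hyN
      have hxy' : (S ^ k) x = y := hxy
      rw [← hxy', comm_pow_apply hBS]
      have h4 : S ((S ^ k) (B x)) = (S ^ k) (S (B x)) := by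
        have : S ((S ^ k) (B x)) = (S ^ (k + 1)) (B x) := by rw [pow_succ']; rfl
        rw [this, pow_succ]
        rfl
      rw [h4, hBF x (mem_eigSp.mp hx)]
    · -- negative exponents
      have h5 : T ((S ^ k) y) = mu • (S ^ k) y := by
        rw [skew_pow_right hTS, hy, map_smul, smul_smul]
        congr 1
        rw [zpow_neg, zpow_natCast]
        field_simp
      have h6 := hBF _ h5
      have h7 : (S ^ k) (S (B y) - y) = 0 := by
        rw [map_sub]
        have h8 : (S ^ k) (S (B y)) = S (B ((S ^ k) y)) := by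
          rw [comm_pow_apply hBS]
          have : S ((S ^ k) (B y)) = (S ^ (k + 1)) (B y) := by rw [pow_succ']; rfl
          rw [this, pow_succ]
          rfl
        rw [h8, h6, sub_self]
      exact sub_eq_zero.mp (pow_injective_of_not h hS k _ h7)
  · -- extension of endomorphisms
    intro L
    have h1 : L ∈ blockSet S T mu 0 := by
      rw [blockSet_eq_top hrefl hS h hTS hT hmu hlam hfin 0]; trivial
    obtain ⟨A, hA, hAL⟩ := h1
    have h1n : ‖(1 : ℂ)‖ = 1 := by simp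
    refine ⟨homog hrefl hT A 1 h1n, homog_comm hrefl hTS hT hlam hA _ _, ?_, ?_⟩
    · have := homog_T hrefl hT A 1 h1n
      rw [inv_one, one_smul] at this
      exact this.symm
    · intro x
      rw [homog_eig hrefl hT hmu A 1 h1n mu hmu (by rw [mul_one]) (mem_eigSp.mp x.2)]
      have h2 : A (x : X) = ((L x : eigSp T mu) : X) := by
        have := hAL x
        simpa using this
      rw [h2, ergProj_eig hrefl hT mu hmu (mem_eigSp.mp (L x).2)]

end Pool.Agent.Lib_helper15
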