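import Pool.Agent.Lib_helper15.Hilden

set_option autoImplicit false

open Filter Topology

namespace Pool.Agent.Lib_helper15

variable {X : Type*} [NormedAddCommGroup X] [NormedSpace ℂ X]

/-- Forward version: orbits cannot decay fast. -/
theorem forward_bound {S : X →L[ℂ] X} 
    (κ : ℕ → ℝ)
    (W : Set (ℕ → X →L[ℂ] X)) (hκ : ∀ V ∈ W, ∀ m, ‖V m‖ ≤ κ m)
    (hcomm : ∀ V ∈ W, ∀ m, S * V m = V (m + 1) * S) (x₀ : X) (r : ℝ) (c : ℝ) (hc : 0 < c)
    (hunif : ∀ y : X, ‖y - x₀‖ ≤ r → ∃ V ∈ W, ∃ A : X →L[ℂ] X,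
      A * S = S * A ∧ ‖A‖ ≤ c ∧ ‖S (A (V 0 y)) - x₀‖ ≤ r) (y : X) (hy : ‖y - x₀‖ ≤ r) :
    ∀ n : ℕ, ∃ z : X, ‖z - x₀‖ ≤ r ∧ ∀ m : ℕ, ‖(S ^ m) z‖ ≤
      c ^ n * (∏ j ∈ Finset.range n, κ (m + j + 1)) * ‖(S ^ (m + n)) y‖ := by
  have hκ0 : ∀ m, 0 ≤ κ m := by
    intro m
    obtain ⟨V, hV, _⟩ := hunif y hy
    exact (norm_nonneg _).trans (hκ V hV m)
  intro n
  induction n with
  | zero => exact ⟨y, hy, fun m => by simp⟩
  | succ n ih =>
    obtain ⟨z, hz, hzn⟩ := ih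
    obtain ⟨V, hV, A, hA, hAc, hAz⟩ := hunif z hz
    refine ⟨S (A (V 0 z)), hAz, fun m => ?_⟩
    have hVpow : ∀ (m : ℕ) (x : X), (S ^ m) (V 0 x) = V m ((S ^ m) x) := by
      intro m
      induction m with
      | zero => intro x; simp
      | succ m ih =>
        intro x
        have h1 : (S ^ (m + 1)) (V 0 x) = S ((S ^ m) (V 0 x)) := by
          rw [pow_succ']; rfl
        have h2 : (S ^ (m + 1)) x = S ((S ^ m) x) := by
          rw [pow_succ']; rfl
        rw [h1, ih, h2]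
        have := congrArg (fun T : X →L[ℂ] X => T ((S ^ m) x)) (hcomm V hV m)
        simpa using this
    have hApow : ∀ (m : ℕ) (x : X), (S ^ m) (A x) = A ((S ^ m) x) := by
      intro m
      induction m with
      | zero => intro x; simp
      | succ m ih =>
        intro x
        have h1 : (S ^ (m + 1)) (A x) = S ((S ^ m) (A x)) := by
          rw [pow_succ']; rfl
        have h2 : (S ^ (m + 1)) x = S ((S ^ m) x) := by
          rw [pow_succ']; rfl
        rw [h1, ih, h2]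
        have := congrArg (fun T : X →L[ℂ] X => T ((S ^ m) x)) hA
        simpa using this.symm
    have h3 : (S ^ m) (S (A (V 0 z))) = A (V (m + 1) ((S ^ (m + 1)) z)) := by
      have h1 : (S ^ m) (S (A (V 0 z))) = (S ^ (m + 1)) (A (V 0 z)) := by
        rw [pow_succ]; rfl
      rw [h1, hApow, hVpow]
    rw [h3]
    have hP : 0 ≤ ∏ j ∈ Finset.range n, κ (m + 1 + j + 1) :=
      Finset.prod_nonneg (fun j _ => hκ0 _)
    calc ‖A (V (m + 1) ((S ^ (m + 1)) z))‖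
        ≤ ‖A‖ * ‖V (m + 1) ((S ^ (m + 1)) z)‖ := A.le_opNorm _
      _ ≤ c * (‖V (m + 1)‖ * ‖(S ^ (m + 1)) z‖) :=
          mul_le_mul hAc ((V (m + 1)).le_opNorm _) (norm_nonneg _) hc.le
      _ ≤ c * (κ (m + 1) * (c ^ n * (∏ j ∈ Finset.range n, κ (m + 1 + j + 1)) *
            ‖(S ^ (m + 1 + n)) y‖)) := by
          apply mul_le_mul_of_nonneg_left _ hc.le
          exact mul_le_mul (hκ V hV _) (hzn (m + 1)) (norm_nonneg _) (hκ0 _)
      _ = c ^ (n + 1) * (∏ j ∈ Finset.range (n + 1), κ (m + j + 1)) * ‖(S ^ (m + (n + 1))) y‖ := by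
          rw [Finset.prod_range_succ']
          have h4 : ∀ j, κ (m + 1 + j + 1) = κ (m + (j + 1) + 1) := fun j => by
            congr 1; omega
          have h5 : m + 1 + n = m + (n + 1) := by omega
          simp only [h4, h5, add_zero]
          ring

/-- The manifold of vectors with a fast decaying orbit. -/
theorem dense_fast_decay {S : X →L[ℂ] X} (h : ¬ HasNontrivialHyperinvariantSubspace S)
    (p : ℕ → ℝ) (hp : ∀ n, 0 ≤ p n) {y : X} (hy0 : y ≠ 0)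
    (hy : ∀ ε : ℝ, 0 < ε → ∀ᶠ n in atTop, ‖(S ^ n) y‖ * p n ≤ ε ^ n) :
    Dense {x : X | ∀ ε : ℝ, 0 < ε → ∀ᶠ n in atTop, ‖(S ^ n) x‖ * p n ≤ ε ^ n} := by
  let N : Submodule ℂ X :=
    { carrier := {x : X | ∀ ε : ℝ, 0 < ε → ∀ᶠ n in atTop, ‖(S ^ n) x‖ * p n ≤ ε ^ n}
      add_mem' := by
        intro a b ha hb ε hε
        filter_upwards [ha (ε / 2) (by positivity), hb (ε / 2) (by positivity),
          eventually_ge_atTop 1] with n h1 h2 h3
        rw [map_add]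
        calc ‖(S ^ n) a + (S ^ n) b‖ * p n ≤ (‖(S ^ n) a‖ + ‖(S ^ n) b‖) * p n :=
              mul_le_mul_of_nonneg_right (norm_add_le _ _) (hp n)
          _ = ‖(S ^ n) a‖ * p n + ‖(S ^ n) b‖ * p n := by ring
          _ ≤ (ε / 2) ^ n + (ε / 2) ^ n := add_le_add h1 h2
          _ ≤ (ε / 2 + ε / 2) ^ n := pow_add_pow_le (by positivity) (by positivity) (by omega)
          _ = ε ^ n := by rw [add_halves]
      zero_mem' := by
        intro ε hε
        refine Eventually.of_forall (fun n => ?_)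
        rw [map_zero, norm_zero, zero_mul]
        positivity
      smul_mem' := by
        intro a x hx ε hε
        have hM : 0 < max ‖a‖ 1 := lt_max_of_lt_right one_pos
        filter_upwards [hx (ε / max ‖a‖ 1) (by positivity), eventually_ge_atTop 1] with n h1 h3
        rw [map_smul, norm_smul]
        have h4 : ‖a‖ ≤ (max ‖a‖ 1) ^ n := by
          calc ‖a‖ ≤ max ‖a‖ 1 := le_max_left _ _
            _ = (max ‖a‖ 1) ^ 1 := (pow_one _).symm
            _ ≤ (max ‖a‖ 1) ^ n := pow_le_pow_right₀ (le_max_right _ _) h3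
        calc ‖a‖ * ‖(S ^ n) x‖ * p n = ‖a‖ * (‖(S ^ n) x‖ * p n) := by ring
          _ ≤ (max ‖a‖ 1) ^ n * (ε / max ‖a‖ 1) ^ n :=
              mul_le_mul h4 h1 (mul_nonneg (norm_nonneg _) (hp n)) (by positivity)
          _ = ε ^ n := by
              rw [← mul_pow, mul_div_cancel₀ _ hM.ne'] }
  have hN : ∀ A : X →L[ℂ] X, A * S = S * A → ∀ x ∈ N, A x ∈ N := by
    intro A hA x hx ε hε
    have hApow : ∀ (m : ℕ) (x : X), (S ^ m) (A x) = A ((S ^ m) x) := by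
      intro m
      induction m with
      | zero => intro x; simp
      | succ m ih =>
        intro x
        have h1 : (S ^ (m + 1)) (A x) = S ((S ^ m) (A x)) := by
          rw [pow_succ']; rfl
        have h2 : (S ^ (m + 1)) x = S ((S ^ m) x) := by
          rw [pow_succ']; rfl
        rw [h1, ih, h2]
        have := congrArg (fun T : X →L[ℂ] X => T ((S ^ m) x)) hA
        simpa using this.symm
    have hM : 0 < max ‖A‖ 1 := lt_max_of_lt_right one_pos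
    filter_upwards [hx (ε / max ‖A‖ 1) (by positivity), eventually_ge_atTop 1] with n h1 h3
    rw [hApow]
    have h4 : ‖A‖ ≤ (max ‖A‖ 1) ^ n := by
      calc ‖A‖ ≤ max ‖A‖ 1 := le_max_left _ _
        _ = (max ‖A‖ 1) ^ 1 := (pow_one _).symm
        _ ≤ (max ‖A‖ 1) ^ n := pow_le_pow_right₀ (le_max_right _ _) h3
    calc ‖A ((S ^ n) x)‖ * p n ≤ ‖A‖ * ‖(S ^ n) x‖ * p n :=
          mul_le_mul_of_nonneg_right (A.le_opNorm _) (hp n)
      _ = ‖A‖ * (‖(S ^ n) x‖ * p n) := by ring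
      _ ≤ (max ‖A‖ 1) ^ n * (ε / max ‖A‖ 1) ^ n :=
          mul_le_mul h4 h1 (mul_nonneg (norm_nonneg _) (hp n)) (by positivity)
      _ = ε ^ n := by
          rw [← mul_pow, mul_div_cancel₀ _ hM.ne']
  have hne : N ≠ ⊥ := by
    intro hbot
    have : y ∈ N := hy
    rw [hbot] at this
    exact hy0 (by simpa using this)
  have htop := closure_eq_top_of_invariant h N hN hne
  intro v
  have hv : v ∈ N.topologicalClosure := by rw [htop]; trivial
  exact hv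

/-- Forward localizing theorem. -/
theorem forward_localizing (S : X →L[ℂ] X) (hS : ∀ c : ℂ, S ≠ c • ContinuousLinearMap.id ℂ X)
    (W : Set (ℕ → X →L[ℂ] X)) (κ : ℕ → ℝ) (x₀ : X) (r : ℝ) (hr : 0 < r)
    (hκ : ∀ V ∈ W, ∀ m : ℕ, ‖V m‖ ≤ κ m)
    (hcomm : ∀ V ∈ W, ∀ m : ℕ, S * V m = V (m + 1) * S)
    (hloc : ∀ y : ℕ → X, (∀ j, ‖y j - x₀‖ ≤ r) →
      ∃ φ : ℕ → ℕ, StrictMono φ ∧ ∃ V : ℕ → ℕ → X →L[ℂ] X, (∀ j, V j ∈ W) ∧
        ∃ w : X, w ≠ 0 ∧ Tendsto (fun j => V j 0 (y (φ j))) atTop (𝓝 w))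
    (y : X) (hy0 : y ≠ 0)
    (hy : ∀ ε : ℝ, 0 < ε →
      ∀ᶠ n in atTop, ‖(S ^ n) y‖ * ∏ j ∈ Finset.range n, κ (j + 1) ≤ ε ^ n) :
    HasNontrivialHyperinvariantSubspace S := by
  by_contra h
  have hκ0 : ∀ m, 0 ≤ κ m := by
    intro m
    obtain ⟨φ, _, V, hV, _⟩ := hloc (fun _ => x₀) (fun _ => by simpa using hr.le)
    exact (norm_nonneg _).trans (hκ (V 0) (hV 0) m)
  have hx₀ : r < ‖x₀‖ := by
    by_contra hle
    push Not at hle
    obtain ⟨φ, _, V, _, w, hw, hlim⟩ := hloc (fun _ => 0) (fun _ => by simpa using hle)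
    apply hw
    refine tendsto_nhds_unique hlim ?_
    simp
  obtain ⟨c, hc, hunif⟩ := uniform_constant h hS W x₀ r hr hloc
  have hdense := dense_fast_decay h (fun n => ∏ j ∈ Finset.range n, κ (j + 1))
    (fun n => Finset.prod_nonneg (fun j _ => hκ0 _)) hy0 hy
  obtain ⟨x, hx, hxr⟩ := hdense.exists_mem_open (Metric.isOpen_ball (x := x₀) (ε := r))
    ⟨x₀, Metric.mem_ball_self hr⟩
  have hxr' : ‖x - x₀‖ ≤ r := by
    have := hxr
    rw [Metric.mem_ball, dist_eq_norm] at this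
    exact this.le
  have hfb := forward_bound κ W hκ hcomm x₀ r c hc hunif x hxr'
  have hlow : ∀ n : ℕ, ‖x₀‖ - r ≤
      c ^ n * (‖(S ^ n) x‖ * ∏ j ∈ Finset.range n, κ (j + 1)) := by
    intro n
    obtain ⟨z, hz, hzn⟩ := hfb n
    have h1 := hzn 0
    simp only [pow_zero, zero_add] at h1
    have h2 : ‖x₀‖ - r ≤ ‖z‖ := by
      have : ‖x₀‖ ≤ ‖z‖ + ‖z - x₀‖ := by
        calc ‖x₀‖ = ‖z - (z - x₀)‖ := by congr 1; abel
          _ ≤ ‖z‖ + ‖z - x₀‖ := norm_sub_le _ _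
      linarith
    calc ‖x₀‖ - r ≤ ‖z‖ := h2
      _ = ‖(1 : X →L[ℂ] X) z‖ := rfl
      _ ≤ _ := h1
      _ = _ := by ring
  have hev := hx (1 / (2 * c)) (by positivity)
  have hlim : Tendsto (fun n : ℕ => ((1 : ℝ) / 2) ^ n) atTop (𝓝 0) :=
    tendsto_pow_atTop_nhds_zero_of_lt_one (by norm_num) (by norm_num)
  have hev2 : ∀ᶠ n : ℕ in atTop, ((1 : ℝ) / 2) ^ n < ‖x₀‖ - r :=
    hlim.eventually_lt_const (by linarith)
  obtain ⟨n, hn1, hn2⟩ := (hev.and hev2).exists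
  have h3 := hlow n
  have h4 : c ^ n * (‖(S ^ n) x‖ * ∏ j ∈ Finset.range n, κ (j + 1)) ≤
      c ^ n * (1 / (2 * c)) ^ n :=
    mul_le_mul_of_nonneg_left hn1 (by positivity)
  have h5 : c ^ n * (1 / (2 * c)) ^ n = ((1 : ℝ) / 2) ^ n := by
    rw [← mul_pow]
    congr 1
    field_simp
  linarith

end Pool.Agent.Lib_helper15
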