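import Pool.Agent.Lib_helper15.Basic

set_option autoImplicit false

open Filter Topology

namespace Pool.Agent.Lib_helper15

variable {X : Type*} [NormedAddCommGroup X] [NormedSpace ℂ X]

/-- Backward orbits with controlled growth. -/
def HasBackwardOrbit (S : X →L[ℂ] X) (κ : ℕ → ℝ) (x : X) : Prop :=
  ∃ c : ℝ, ∃ z : ℕ → X, z 0 = x ∧ (∀ m, S (z (m + 1)) = z m) ∧
    ∀ m, ‖z m‖ ≤ c ^ (m + 1) * ∏ j ∈ Finset.range m, κ j

theorem uniform_constant {S : X →L[ℂ] X} (h : ¬ HasNontrivialHyperinvariantSubspace S)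
    (hS : ∀ c : ℂ, S ≠ c • ContinuousLinearMap.id ℂ X)
    (W : Set (ℕ → X →L[ℂ] X)) (x₀ : X) (r : ℝ) (hr : 0 < r)
    (hloc : ∀ y : ℕ → X, (∀ j, ‖y j - x₀‖ ≤ r) →
      ∃ φ : ℕ → ℕ, StrictMono φ ∧ ∃ V : ℕ → ℕ → X →L[ℂ] X, (∀ j, V j ∈ W) ∧
        ∃ w : X, w ≠ 0 ∧ Tendsto (fun j => V j 0 (y (φ j))) atTop (𝓝 w)) :
    ∃ c : ℝ, 0 < c ∧ ∀ y : X, ‖y - x₀‖ ≤ r → ∃ V ∈ W, ∃ A : X →L[ℂ] X,
      A * S = S * A ∧ ‖A‖ ≤ c ∧ ‖S (A (V 0 y)) - x₀‖ ≤ r := by
  classical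
  by_contra hcon
  push Not at hcon
  have hcon' : ∀ j : ℕ, ∃ y : X, ‖y - x₀‖ ≤ r ∧ ∀ V ∈ W, ∀ A : X →L[ℂ] X,
      A * S = S * A → ‖A‖ ≤ (j : ℝ) + 1 → r < ‖S (A (V 0 y)) - x₀‖ :=
    fun j => hcon ((j : ℝ) + 1) (by positivity)
  choose y hy1 hy2 using hcon'
  obtain ⟨φ, hφ, V, hV, w, hw, hlim⟩ := hloc y hy1
  obtain ⟨A, hA, hAw⟩ := exists_commutant_approx h hS hw x₀ hr
  have hcont : Tendsto (fun j => ‖S (A (V j 0 (y (φ j)))) - x₀‖) atTop (𝓝 ‖S (A w) - x₀‖) := by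
    have h1 : Tendsto (fun j => S (A (V j 0 (y (φ j))))) atTop (𝓝 (S (A w))) :=
      ((S.continuous.comp A.continuous).tendsto w).comp hlim
    exact (h1.sub_const x₀).norm
  have hev1 : ∀ᶠ j in atTop, ‖S (A (V j 0 (y (φ j)))) - x₀‖ < r :=
    hcont.eventually_lt_const hAw
  have hev2 : ∀ᶠ j : ℕ in atTop, ‖A‖ ≤ (j : ℝ) := by
    have : Tendsto (fun j : ℕ => (j : ℝ)) atTop atTop := tendsto_natCast_atTop_atTop
    exact this.eventually_ge_atTop ‖A‖
  obtain ⟨j, hj1, hj2⟩ := (hev1.and hev2).exists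
  have hj3 : ‖A‖ ≤ ((φ j : ℕ) : ℝ) + 1 := by
    have : (j : ℝ) ≤ ((φ j : ℕ) : ℝ) := by exact_mod_cast hφ.id_le j
    linarith
  have := hy2 (φ j) (V j) (hV j) A hA hj3
  linarith

/-- Finite backward orbits. -/
theorem finite_backward {S : X →L[ℂ] X} (h : ¬ HasNontrivialHyperinvariantSubspace S)
    (hS : ∀ c : ℂ, S ≠ c • ContinuousLinearMap.id ℂ X)
    (κ : ℕ → ℝ)
    (W : Set (ℕ → X →L[ℂ] X)) (hκ : ∀ V ∈ W, ∀ m, ‖V m‖ ≤ κ m)
    (hcomm : ∀ V ∈ W, ∀ m, V m * S = S * V (m + 1)) (x₀ : X) (r : ℝ) (hr : 0 < r)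
    (hloc : ∀ y : ℕ → X, (∀ j, ‖y j - x₀‖ ≤ r) →
      ∃ φ : ℕ → ℕ, StrictMono φ ∧ ∃ V : ℕ → ℕ → X →L[ℂ] X, (∀ j, V j ∈ W) ∧
        ∃ w : X, w ≠ 0 ∧ Tendsto (fun j => V j 0 (y (φ j))) atTop (𝓝 w)) :
    ∃ c : ℝ, 0 < c ∧ ∃ z : ℕ → ℕ → X, (∀ n, ‖z n 0 - x₀‖ ≤ r) ∧
      (∀ n m, m < n → S (z n (m + 1)) = z n m) ∧
      ∀ n m, ‖z n m‖ ≤ c ^ (m + 1) * ∏ j ∈ Finset.range m, κ j := by
  classical
  obtain ⟨c, hc, hunif⟩ := uniform_constant h hS W x₀ r hr hloc
  choose V hVW A hA hAc hstep using hunif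
  -- nonnegativity of κ
  have hκ0 : ∀ m, 0 ≤ κ m := fun m =>
    (norm_nonneg _).trans (hκ (V x₀ (by simpa using hr.le)) (hVW _ _) m)
  -- the recursion: a state is a sequence `z : ℕ → X` with `‖z 0 - x₀‖ ≤ r`
  let step : {z : ℕ → X // ‖z 0 - x₀‖ ≤ r} → {z : ℕ → X // ‖z 0 - x₀‖ ≤ r} := fun z =>
    ⟨fun m => Nat.casesOn m (S (A (z.1 0) z.2 (V (z.1 0) z.2 0 (z.1 0))))
      (fun m' => A (z.1 0) z.2 (V (z.1 0) z.2 m' (z.1 m'))), hstep (z.1 0) z.2⟩
  let init : {z : ℕ → X // ‖z 0 - x₀‖ ≤ r} :=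
    ⟨fun m => Nat.casesOn m x₀ (fun _ => 0), by simpa using hr.le⟩
  let Z : ℕ → {z : ℕ → X // ‖z 0 - x₀‖ ≤ r} := fun n => step^[n] init
  have hZs : ∀ n, Z (n + 1) = step (Z n) := fun n => Function.iterate_succ_apply' step n init
  set R : ℝ := ‖x₀‖ + r with hR
  have hRpos : 0 < R := by positivity
  have hball : ∀ y : X, ‖y - x₀‖ ≤ r → ‖y‖ ≤ R := by
    intro y hy
    calc ‖y‖ = ‖x₀ + (y - x₀)‖ := by congr 1; abel
      _ ≤ ‖x₀‖ + ‖y - x₀‖ := norm_add_le _ _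
      _ ≤ R := by rw [hR]; linarith
  have hback : ∀ n m, m < n → S ((Z n).1 (m + 1)) = (Z n).1 m := by
    intro n
    induction n with
    | zero => intro m hm; omega
    | succ n ih =>
      intro m hm
      rw [hZs n]
      cases m with
      | zero => rfl
      | succ m =>
        show S (A _ _ (V _ _ (m + 1) ((Z n).1 (m + 1)))) = A _ _ (V _ _ m ((Z n).1 m))
        have h1 : ∀ x, S (A ((Z n).1 0) (Z n).2 x) = A ((Z n).1 0) (Z n).2 (S x) := by
          intro x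
          have := congrArg (fun T : X →L[ℂ] X => T x) (hA ((Z n).1 0) (Z n).2)
          simpa using this.symm
        have h2 : ∀ x, S (V ((Z n).1 0) (Z n).2 (m + 1) x) = V ((Z n).1 0) (Z n).2 m (S x) := by
          intro x
          have := congrArg (fun T : X →L[ℂ] X => T x)
            (hcomm (V ((Z n).1 0) (Z n).2) (hVW _ _) m)
          simpa using this.symm
        rw [h1, h2, ih m (by omega)]
  have hnorm : ∀ n m, ‖(Z n).1 m‖ ≤ c ^ m * (∏ j ∈ Finset.range m, κ j) * R := by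
    intro n
    induction n with
    | zero =>
      intro m
      cases m with
      | zero =>
        simp only [pow_zero, Finset.range_zero, Finset.prod_empty, one_mul]
        exact hball _ (Z 0).2
      | succ m =>
        show ‖(0 : X)‖ ≤ _
        rw [norm_zero]
        have : 0 ≤ ∏ j ∈ Finset.range (m + 1), κ j := Finset.prod_nonneg (fun j _ => hκ0 j)
        positivity
    | succ n ih =>
      intro m
      cases m with
      | zero =>
        simp only [pow_zero, Finset.range_zero, Finset.prod_empty, one_mul]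
        exact hball _ (Z (n + 1)).2
      | succ m =>
        rw [hZs n]
        show ‖A _ _ (V _ _ m ((Z n).1 m))‖ ≤ _
        have hk := hκ (V ((Z n).1 0) (Z n).2) (hVW _ _) m
        calc ‖A ((Z n).1 0) (Z n).2 (V ((Z n).1 0) (Z n).2 m ((Z n).1 m))‖
            ≤ ‖A ((Z n).1 0) (Z n).2‖ * ‖V ((Z n).1 0) (Z n).2 m ((Z n).1 m)‖ :=
              ContinuousLinearMap.le_opNorm _ _
          _ ≤ c * (‖V ((Z n).1 0) (Z n).2 m‖ * ‖(Z n).1 m‖) := by
              apply mul_le_mul (hAc _ _) (ContinuousLinearMap.le_opNorm _ _) (norm_nonneg _) hc.le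
          _ ≤ c * (κ m * (c ^ m * (∏ j ∈ Finset.range m, κ j) * R)) := by
              apply mul_le_mul_of_nonneg_left _ hc.le
              exact mul_le_mul hk (ih m) (norm_nonneg _) (hκ0 m)
          _ = c ^ (m + 1) * (∏ j ∈ Finset.range (m + 1), κ j) * R := by
              rw [Finset.prod_range_succ]; ring
  refine ⟨max c (max R 1), lt_max_of_lt_left hc, fun n m => (Z n).1 m, fun n => (Z n).2, hback, ?_⟩
  intro n m
  have hP : 0 ≤ ∏ j ∈ Finset.range m, κ j := Finset.prod_nonneg (fun j _ => hκ0 j)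
  set c' := max c (max R 1) with hc'
  have hc'c : c ≤ c' := le_max_left _ _
  have hc'R : R ≤ c' := (le_max_left _ _).trans (le_max_right _ _)
  calc ‖(Z n).1 m‖ ≤ c ^ m * (∏ j ∈ Finset.range m, κ j) * R := hnorm n m
    _ = (c ^ m * R) * (∏ j ∈ Finset.range m, κ j) := by ring
    _ ≤ (c' ^ m * c') * (∏ j ∈ Finset.range m, κ j) := by
        apply mul_le_mul_of_nonneg_right _ hP
        apply mul_le_mul (pow_le_pow_left₀ hc.le hc'c m) hc'R hRpos.le
        exact pow_nonneg (hc.le.trans hc'c) m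
    _ = c' ^ (m + 1) * ∏ j ∈ Finset.range m, κ j := by rw [pow_succ]


/-- In a reflexive space the finite backward orbits converge to an infinite one. -/
theorem infinite_backward
    (hrefl : Function.Surjective (NormedSpace.inclusionInDoubleDual ℂ X))
    {S : X →L[ℂ] X} (κ : ℕ → ℝ) (x₀ : X) (r : ℝ) (c : ℝ) (z : ℕ → ℕ → X)
    (hz0 : ∀ n, ‖z n 0 - x₀‖ ≤ r) (hz : ∀ n m, m < n → S (z n (m + 1)) = z n m)
    (hzn : ∀ n m, ‖z n m‖ ≤ c ^ (m + 1) * ∏ j ∈ Finset.range m, κ j) :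
    ∃ x : X, ‖x - x₀‖ ≤ r ∧ HasBackwardOrbit S κ x := by
  classical
  let U : Ultrafilter ℕ := Filter.hyperfilter ℕ
  have hU : (U : Filter ℕ) ≤ atTop := Nat.hyperfilter_le_atTop
  have hex : ∀ m, ∃ y : X, ‖y‖ ≤ c ^ (m + 1) * ∏ j ∈ Finset.range m, κ j ∧
      ∀ f : StrongDual ℂ X, Tendsto (fun n => f (z n m)) U (𝓝 (f y)) :=
    fun m => exists_weak_ulim hrefl U (fun n => z n m) _ (fun n => hzn n m)
  choose y hy1 hy2 using hex
  obtain ⟨d, hd1, hd2⟩ := exists_weak_ulim hrefl U (fun n => z n 0 - x₀) r hz0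
  have hd : d = y 0 - x₀ := by
    apply eq_of_forall_dual_eq
    intro f
    refine tendsto_nhds_unique (hd2 f) ?_
    have := (hy2 0 f).sub_const (f x₀)
    simpa using this
  refine ⟨y 0, by rw [← hd]; exact hd1, c, y, rfl, ?_, hy1⟩
  intro m
  apply eq_of_forall_dual_eq
  intro f
  have h1 : Tendsto (fun n => f (S (z n (m + 1)))) U (𝓝 (f (S (y (m + 1))))) :=
    hy2 (m + 1) (f.comp S)
  have h2 : Tendsto (fun n => f (S (z n (m + 1)))) U (𝓝 (f (y m))) := by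
    refine (hy2 m f).congr' ?_
    have : ∀ᶠ n in atTop, m < n := eventually_gt_atTop m
    filter_upwards [hU this] with n hn
    rw [hz n m hn]
  exact tendsto_nhds_unique h1 h2

/-- Vectors with a backward orbit of controlled growth are dense if there is one nonzero such
vector and no nontrivial hyperinvariant subspace. -/
theorem dense_backward {S : X →L[ℂ] X} (h : ¬ HasNontrivialHyperinvariantSubspace S)
    (κ : ℕ → ℝ) (hκ0 : ∀ m, 0 ≤ κ m) {x : X} (hx0 : x ≠ 0) (hx : HasBackwardOrbit S κ x) :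
    Dense {x : X | HasBackwardOrbit S κ x} := by
  classical
  have hP : ∀ m, 0 ≤ ∏ j ∈ Finset.range m, κ j := fun m => Finset.prod_nonneg (fun j _ => hκ0 j)
  -- normal form: positive constants
  have hpos : ∀ x : X, HasBackwardOrbit S κ x → ∃ c : ℝ, 1 ≤ c ∧ ∃ z : ℕ → X, z 0 = x ∧
      (∀ m, S (z (m + 1)) = z m) ∧ ∀ m, ‖z m‖ ≤ c ^ (m + 1) * ∏ j ∈ Finset.range m, κ j := by
    rintro x ⟨c, z, h0, h1, h2⟩
    refine ⟨max |c| 1, le_max_right _ _, z, h0, h1, fun m => (h2 m).trans ?_⟩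
    apply mul_le_mul_of_nonneg_right _ (hP m)
    calc c ^ (m + 1) ≤ |c| ^ (m + 1) := by
          rw [← abs_pow]; exact le_abs_self _
      _ ≤ (max |c| 1) ^ (m + 1) := pow_le_pow_left₀ (abs_nonneg _) (le_max_left _ _) _
  let N : Submodule ℂ X :=
    { carrier := {x : X | HasBackwardOrbit S κ x}
      add_mem' := by
        intro a b ha hb
        obtain ⟨c, hc, z, h0, h1, h2⟩ := hpos a ha
        obtain ⟨c', hc', z', h0', h1', h2'⟩ := hpos b hb
        refine ⟨c + c', fun m => z m + z' m, by simp [h0, h0'], fun m => by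
          simp [h1 m, h1' m], fun m => ?_⟩
        calc ‖z m + z' m‖ ≤ ‖z m‖ + ‖z' m‖ := norm_add_le _ _
          _ ≤ c ^ (m + 1) * ∏ j ∈ Finset.range m, κ j + c' ^ (m + 1) * ∏ j ∈ Finset.range m, κ j :=
              add_le_add (h2 m) (h2' m)
          _ = (c ^ (m + 1) + c' ^ (m + 1)) * ∏ j ∈ Finset.range m, κ j := by ring
          _ ≤ (c + c') ^ (m + 1) * ∏ j ∈ Finset.range m, κ j := by
              apply mul_le_mul_of_nonneg_right _ (hP m)
              exact pow_add_pow_le (by linarith) (by linarith) (by omega)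
      zero_mem' := ⟨0, fun _ => 0, rfl, fun m => by simp, fun m => by
        simp⟩
      smul_mem' := by
        intro a x hx
        obtain ⟨c, hc, z, h0, h1, h2⟩ := hpos x hx
        refine ⟨max ‖a‖ 1 * c, fun m => a • z m, by simp [h0], fun m => by simp [h1 m],
          fun m => ?_⟩
        have h3 : ‖a‖ ≤ (max ‖a‖ 1) ^ (m + 1) := by
          calc ‖a‖ ≤ max ‖a‖ 1 := le_max_left _ _
            _ = (max ‖a‖ 1) ^ 1 := (pow_one _).symm
            _ ≤ (max ‖a‖ 1) ^ (m + 1) := pow_le_pow_right₀ (le_max_right _ _) (by omega)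
        calc ‖a • z m‖ = ‖a‖ * ‖z m‖ := norm_smul _ _
          _ ≤ (max ‖a‖ 1) ^ (m + 1) * (c ^ (m + 1) * ∏ j ∈ Finset.range m, κ j) :=
              mul_le_mul h3 (h2 m) (norm_nonneg _) (by positivity)
          _ = (max ‖a‖ 1 * c) ^ (m + 1) * ∏ j ∈ Finset.range m, κ j := by rw [mul_pow]; ring }
  have hN : ∀ A : X →L[ℂ] X, A * S = S * A → ∀ x ∈ N, A x ∈ N := by
    intro A hA x hx
    obtain ⟨c, hc, z, h0, h1, h2⟩ := hpos x hx
    refine ⟨max ‖A‖ 1 * c, fun m => A (z m), by simp [h0], fun m => ?_, fun m => ?_⟩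
    · have : S (A (z (m + 1))) = A (S (z (m + 1))) := by
        have := congrArg (fun T : X →L[ℂ] X => T (z (m + 1))) hA
        simpa using this.symm
      rw [this, h1 m]
    · have h3 : ‖A‖ ≤ (max ‖A‖ 1) ^ (m + 1) := by
        calc ‖A‖ ≤ max ‖A‖ 1 := le_max_left _ _
          _ = (max ‖A‖ 1) ^ 1 := (pow_one _).symm
          _ ≤ (max ‖A‖ 1) ^ (m + 1) := pow_le_pow_right₀ (le_max_right _ _) (by omega)
      calc ‖A (z m)‖ ≤ ‖A‖ * ‖z m‖ := A.le_opNorm _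
        _ ≤ (max ‖A‖ 1) ^ (m + 1) * (c ^ (m + 1) * ∏ j ∈ Finset.range m, κ j) :=
            mul_le_mul h3 (h2 m) (norm_nonneg _) (by positivity)
        _ = (max ‖A‖ 1 * c) ^ (m + 1) * ∏ j ∈ Finset.range m, κ j := by rw [mul_pow]; ring
  have hne : N ≠ ⊥ := by
    intro hbot
    have : x ∈ N := hx
    rw [hbot] at this
    exact hx0 (by simpa using this)
  have htop := closure_eq_top_of_invariant h N hN hne
  intro v
  have hv : v ∈ N.topologicalClosure := by rw [htop]; trivial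
  exact hv

end Pool.Agent.Lib_helper15
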