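import Pool.Agent.Lib_helper15.OpLim
import Pool.Agent.Lib_helper15.Burnside

/-!
Operators `S` on a reflexive space which commute up to a scalar factor with a power bounded
operator `T` having a unimodular eigenvalue of finite multiplicity (helper15).
-/

set_option autoImplicit false

open Filter Topology

namespace Pool.Agent.Lib_helper15

variable {X : Type*} [NormedAddCommGroup X] [NormedSpace ℂ X]

section basics

theorem comm_apply {S A : X →L[ℂ] X} (h : A * S = S * A) (x : X) : A (S x) = S (A x) := by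
  have := congrArg (fun T : X →L[ℂ] X => T x) h
  simpa using this

theorem comm_pow_apply {S A : X →L[ℂ] X} (h : A * S = S * A) (k : ℕ) (x : X) :
    A ((S ^ k) x) = (S ^ k) (A x) := by
  have h1 : A * S ^ k = S ^ k * A := by
    have : Commute A S := h
    exact (this.pow_right k).eq
  have := congrArg (fun T : X →L[ℂ] X => T x) h1
  simpa using this

theorem skew_pow {S T : X →L[ℂ] X} {lam : ℂ} (hTS : T * S = lam • (S * T)) (n : ℕ) (x : X) :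
    (T ^ n) (S x) = lam ^ n • S ((T ^ n) x) := by
  have h1 : ∀ y, T (S y) = lam • S (T y) := by
    intro y
    have := congrArg (fun A : X →L[ℂ] X => A y) hTS
    simpa using this
  induction n with
  | zero => simp
  | succ n ih =>
    rw [pow_succ']
    show T ((T ^ n) (S x)) = _
    rw [ih, map_smul, h1, smul_smul, pow_succ]
    rfl

theorem skew_pow_right {S T : X →L[ℂ] X} {lam : ℂ} (hTS : T * S = lam • (S * T)) (k : ℕ) (x : X) :
    T ((S ^ k) x) = lam ^ k • (S ^ k) (T x) := by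
  have h1 : ∀ y, T (S y) = lam • S (T y) := by
    intro y
    have := congrArg (fun A : X →L[ℂ] X => A y) hTS
    simpa using this
  induction k with
  | zero => simp
  | succ k ih =>
    rw [pow_succ']
    show T (S ((S ^ k) x)) = _
    rw [h1, ih, map_smul, smul_smul, pow_succ']
    rfl

theorem eig_pow {T : X →L[ℂ] X} {mu : ℂ} {x : X} (hx : T x = mu • x) (n : ℕ) :
    (T ^ n) x = mu ^ n • x := by
  induction n with
  | zero => simp
  | succ n ih =>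
    rw [pow_succ']
    show T ((T ^ n) x) = _
    rw [ih, map_smul, hx, smul_smul, pow_succ]

/-- Density of `S^k {S}' y`. -/
theorem exists_commutant_approx_pow {S : X →L[ℂ] X}
    (h : ¬ HasNontrivialHyperinvariantSubspace S)
    (hS : ∀ c : ℂ, S ≠ c • ContinuousLinearMap.id ℂ X) (k : ℕ) {y : X} (hy : y ≠ 0) (v : X) {ε : ℝ}
    (hε : 0 < ε) : ∃ A : X →L[ℂ] X, A * S = S * A ∧ ‖(S ^ k) (A y) - v‖ < ε := by
  classical
  let ev : (X →L[ℂ] X) →ₗ[ℂ] X :=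
    { toFun := fun A => (S ^ k) (A y)
      map_add' := by intro A B; simp
      map_smul' := by intro c A; simp }
  let N : Submodule ℂ X := (commutantSubmodule S).map ev
  have hN : ∀ A : X →L[ℂ] X, A * S = S * A → ∀ x ∈ N, A x ∈ N := by
    intro B hB x hx
    obtain ⟨A, hA, rfl⟩ := hx
    refine ⟨B * A, ?_, ?_⟩
    · show B * A * S = S * (B * A)
      have hA' : A * S = S * A := hA
      rw [mul_assoc, hA', ← mul_assoc, hB, mul_assoc]
    · show (S ^ k) ((B * A) y) = B ((S ^ k) (A y))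
      rw [comm_pow_apply hB]
      rfl
  have hinj : ∀ j : ℕ, ∀ z : X, (S ^ j) z = 0 → z = 0 := by
    intro j
    induction j with
    | zero => intro z hz; simpa using hz
    | succ j ih =>
      intro z hz
      rw [pow_succ'] at hz
      exact ih z (ker_eq_bot_of_not h hS _ hz)
  have hne : N ≠ ⊥ := by
    intro hbot
    have h1 : (S ^ k) y ∈ N := ⟨1, by show (1 : X →L[ℂ] X) * S = S * 1; simp, by simp [ev]⟩
    rw [hbot] at h1
    exact hy (hinj k y (by simpa using h1))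
  have htop := closure_eq_top_of_invariant h N hN hne
  have hv : v ∈ N.topologicalClosure := by rw [htop]; trivial
  have hv' : v ∈ closure (N : Set X) := hv
  obtain ⟨b, hb, hbv⟩ := Metric.mem_closure_iff.mp hv' ε hε
  obtain ⟨A, hA, rfl⟩ := hb
  refine ⟨A, hA, ?_⟩
  rw [dist_eq_norm, norm_sub_rev] at hbv
  exact hbv

theorem pow_injective_of_not {S : X →L[ℂ] X} (h : ¬ HasNontrivialHyperinvariantSubspace S)
    (hS : ∀ c : ℂ, S ≠ c • ContinuousLinearMap.id ℂ X) (j : ℕ) (z : X) (hz : (S ^ j) z = 0) :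
    z = 0 := by
  induction j generalizing z with
  | zero => simpa using hz
  | succ j ih =>
    rw [pow_succ'] at hz
    exact ih z (ker_eq_bot_of_not h hS _ hz)

/-- A nonscalar operator with an eigenvector has a nontrivial hyperinvariant subspace. -/
theorem hasNHS_of_eigenvector {S : X →L[ℂ] X} (hS : ∀ c : ℂ, S ≠ c • ContinuousLinearMap.id ℂ X)
    {c : ℂ} {v : X} (hv : v ≠ 0) (hSv : S v = c • v) : HasNontrivialHyperinvariantSubspace S := by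
  let G : X →L[ℂ] X := S - c • ContinuousLinearMap.id ℂ X
  refine ⟨LinearMap.ker (G : X →ₗ[ℂ] X), G.isClosed_ker, ?_, ?_, ?_⟩
  · intro hbot
    apply hv
    have : v ∈ LinearMap.ker (G : X →ₗ[ℂ] X) := by simp [G, hSv]
    rw [hbot] at this
    simpa using this
  · intro htop
    apply hS c
    ext y
    have : y ∈ LinearMap.ker (G : X →ₗ[ℂ] X) := by rw [htop]; trivial
    have h1 : S y - c • y = 0 := by simpa [G] using this
    simpa using sub_eq_zero.mp h1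
  · intro A hA x hx
    have hx' : S x - c • x = 0 := by simpa [G] using hx
    have h2 : S (A x) - c • A x = 0 := by
      rw [← comm_apply hA, ← map_smul, ← map_sub, hx', map_zero]
    simpa [G] using h2

/-- Powers of a unimodular number converge along `UF`. -/
theorem exists_lim_pow (z : ℂ) (hz : ‖z‖ = 1) :
    ∃ l : ℂ, ‖l‖ = 1 ∧ Tendsto (fun m : ℕ => z ^ m) UF (𝓝 l) := by
  have hb : ∀ m : ℕ, z ^ m ∈ Metric.sphere (0 : ℂ) 1 := by
    intro m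
    simp [hz]
  have hcomp : IsCompact (Metric.sphere (0 : ℂ) 1) := isCompact_sphere _ _
  have hle : ((UF.map (fun m : ℕ => z ^ m) : Ultrafilter ℂ) : Filter ℂ) ≤
      𝓟 (Metric.sphere (0 : ℂ) 1) := by
    rw [le_principal_iff]
    exact Filter.mem_map.mpr (Filter.mem_of_superset Filter.univ_mem (fun i _ => hb i))
  obtain ⟨l, hl, hlim⟩ := hcomp.ultrafilter_le_nhds _ hle
  exact ⟨l, by simpa using hl, hlim⟩

end basics

section main

variable (hrefl : Function.Surjective (NormedSpace.inclusionInDoubleDual ℂ X))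
  {S T : X →L[ℂ] X} {lam mu : ℂ} {C : ℝ}

theorem norm_scaled_pow_le (hT : ∀ n : ℕ, ‖T ^ n‖ ≤ C) {ν : ℂ} (hν : ‖ν‖ = 1) (n : ℕ) :
    ‖(ν⁻¹) ^ n • T ^ n‖ ≤ C := by
  rw [norm_smul, norm_pow, norm_inv, hν]
  simpa using hT n

/-- The ergodic projection onto `ker (T - ν)`. -/
noncomputable def ergProj (hT : ∀ n : ℕ, ‖T ^ n‖ ≤ C) (ν : ℂ) (hν : ‖ν‖ = 1) : X →L[ℂ] X :=
  opCLim hrefl (fun n => (ν⁻¹) ^ n • T ^ n) C (norm_scaled_pow_le hT hν)

theorem ergProj_norm (hT : ∀ n : ℕ, ‖T ^ n‖ ≤ C) (ν : ℂ) (hν : ‖ν‖ = 1) :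
    ‖ergProj hrefl hT ν hν‖ ≤ C := norm_opCLim_le _ _ _ _

theorem ergProj_apply (hT : ∀ n : ℕ, ‖T ^ n‖ ≤ C) (ν : ℂ) (hν : ‖ν‖ = 1) (x : X) :
    ergProj hrefl hT ν hν x = cLim hrefl (fun n => (ν⁻¹) ^ n • (T ^ n) x) := rfl

theorem erg_bound (hT : ∀ n : ℕ, ‖T ^ n‖ ≤ C) {ν : ℂ} (hν : ‖ν‖ = 1) (x : X) (n : ℕ) :
    ‖(ν⁻¹) ^ n • (T ^ n) x‖ ≤ C * ‖x‖ :=
  ((ν⁻¹) ^ n • T ^ n : X →L[ℂ] X).le_of_opNorm_le (norm_scaled_pow_le hT hν n) x

theorem T_ergProj (hT : ∀ n : ℕ, ‖T ^ n‖ ≤ C) (ν : ℂ) (hν : ‖ν‖ = 1) (x : X) :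
    T (ergProj hrefl hT ν hν x) = ν • ergProj hrefl hT ν hν x := by
  have hν0 : ν ≠ 0 := by intro h; rw [h] at hν; simp at hν
  have hb := erg_bound hT hν x
  rw [ergProj_apply, ← cLim_map hrefl hb T, ← cLim_shift hrefl hb,
    ← cLim_smul hrefl (fun n => hb (n + 1))]
  congr 1
  funext n
  rw [map_smul, smul_smul, pow_succ (ν⁻¹) n]
  have h1 : T ((T ^ n) x) = (T ^ (n + 1)) x := by rw [pow_succ']; rfl
  rw [h1]
  congr 1
  field_simp

theorem ergProj_T (hT : ∀ n : ℕ, ‖T ^ n‖ ≤ C) (ν : ℂ) (hν : ‖ν‖ = 1) (x : X) :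
    ergProj hrefl hT ν hν (T x) = ν • ergProj hrefl hT ν hν x := by
  rw [← T_ergProj, ergProj_apply, ergProj_apply, ← cLim_map hrefl (erg_bound hT hν x) T]
  congr 1
  funext n
  rw [map_smul]
  congr 1
  have h1 : T ((T ^ n) x) = (T ^ (n + 1)) x := by rw [pow_succ']; rfl
  rw [h1, pow_succ]
  rfl

theorem ergProj_eig (hT : ∀ n : ℕ, ‖T ^ n‖ ≤ C) (ν : ℂ) (hν : ‖ν‖ = 1) {x : X}
    (hx : T x = ν • x) : ergProj hrefl hT ν hν x = x := by
  have hν0 : ν ≠ 0 := by intro h; rw [h] at hν; simp at hν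
  rw [ergProj_apply]
  have : (fun n : ℕ => (ν⁻¹) ^ n • (T ^ n) x) = fun _ => x := by
    funext n
    rw [eig_pow hx, smul_smul, ← mul_pow, inv_mul_cancel₀ hν0, one_pow, one_smul]
  rw [this, cLim_const]

theorem ergProj_S (hTS : T * S = lam • (S * T)) (hT : ∀ n : ℕ, ‖T ^ n‖ ≤ C) (hlam : ‖lam‖ = 1)
    (ν ν' : ℂ) (hν : ‖ν‖ = 1) (hν' : ‖ν'‖ = 1) (hνν' : ν = ν' * lam) (x : X) :
    ergProj hrefl hT ν hν (S x) = S (ergProj hrefl hT ν' hν' x) := by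
  have hlam0 : lam ≠ 0 := by intro h; rw [h] at hlam; simp at hlam
  have hν0 : ν' ≠ 0 := by intro h; rw [h] at hν'; simp at hν'
  rw [ergProj_apply, ergProj_apply, ← cLim_map hrefl (erg_bound hT hν' x) S]
  congr 1
  funext n
  rw [skew_pow hTS, map_smul, smul_smul, hνν', ← mul_pow]
  congr 2
  field_simp

theorem ergProj_S_pow (hTS : T * S = lam • (S * T)) (hT : ∀ n : ℕ, ‖T ^ n‖ ≤ C)
    (hlam : ‖lam‖ = 1) (k : ℕ) (ν ν' : ℂ) (hν : ‖ν‖ = 1) (hν' : ‖ν'‖ = 1)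
    (hνν' : ν = ν' * lam ^ k) (x : X) :
    ergProj hrefl hT ν hν ((S ^ k) x) = (S ^ k) (ergProj hrefl hT ν' hν' x) := by
  induction k generalizing ν x with
  | zero =>
    simp only [pow_zero, mul_one] at hνν'
    subst hνν'
    simp
  | succ k ih =>
    have h1 : ‖ν' * lam ^ k‖ = 1 := by simp [hν', hlam]
    rw [pow_succ']
    show ergProj hrefl hT ν hν (S ((S ^ k) x)) = S ((S ^ k) (ergProj hrefl hT ν' hν' x))
    rw [ergProj_S hrefl hTS hT hlam ν (ν' * lam ^ k) hν h1 (by rw [hνν', pow_succ]; ring),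
      ih (ν' * lam ^ k) h1 rfl]

/-- Auxiliary one-sided limits of the powers of `T`. -/
noncomputable def Qop (hT : ∀ n : ℕ, ‖T ^ n‖ ≤ C) (k : ℕ) : X →L[ℂ] X :=
  opULim hrefl (fun m => T ^ (m - k)) C (fun m => hT (m - k))

theorem Qop_norm (hT : ∀ n : ℕ, ‖T ^ n‖ ≤ C) (k : ℕ) : ‖Qop hrefl hT k‖ ≤ C :=
  norm_opULim_le _ _ _ _

theorem Qop_apply (hT : ∀ n : ℕ, ‖T ^ n‖ ≤ C) (k : ℕ) (x : X) :
    Qop hrefl hT k x = uLim hrefl (fun m => (T ^ (m - k)) x) := rfl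

theorem tendsto_pow_sub {z l : ℂ} (hz : ‖z‖ = 1) (hl : Tendsto (fun m : ℕ => z ^ m) UF (𝓝 l))
    (k : ℕ) : Tendsto (fun m : ℕ => z ^ (m - k)) UF (𝓝 (l * (z⁻¹) ^ k)) := by
  have hz0 : z ≠ 0 := by intro h; rw [h] at hz; simp at hz
  refine (hl.mul_const ((z⁻¹) ^ k)).congr' ?_
  have : ∀ᶠ m in atTop, k ≤ m := eventually_ge_atTop k
  filter_upwards [UF_le_atTop this] with m hm
  have : z ^ m = z ^ (m - k) * z ^ k := by rw [← pow_add]; congr 1; omega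
  rw [this, mul_assoc, ← mul_pow, mul_inv_cancel₀ hz0, one_pow, mul_one]

theorem Qop_S (hTS : T * S = lam • (S * T)) (hT : ∀ n : ℕ, ‖T ^ n‖ ≤ C) (hlam : ‖lam‖ = 1)
    {l : ℂ} (hl : Tendsto (fun m : ℕ => lam ^ m) UF (𝓝 l)) (k : ℕ) (x : X) :
    Qop hrefl hT k (S x) = (l * (lam⁻¹) ^ k) • S (Qop hrefl hT k x) := by
  have hb : ∀ m, ‖(T ^ (m - k)) x‖ ≤ C * ‖x‖ := fun m => (T ^ (m - k)).le_of_opNorm_le (hT _) x
  rw [Qop_apply, Qop_apply, ← uLim_map hrefl hb S]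
  have hb' : ∀ m, ‖S ((T ^ (m - k)) x)‖ ≤ ‖S‖ * (C * ‖x‖) := fun m =>
    (S.le_opNorm _).trans (by gcongr; exact hb m)
  rw [← uLim_smul_tendsto hrefl hb' (D := 1) (a := fun m => lam ^ (m - k))
    (fun m => by simp [hlam]) (tendsto_pow_sub hlam hl k)]
  congr 1
  funext m
  rw [skew_pow hTS]

theorem Qop_eig (hT : ∀ n : ℕ, ‖T ^ n‖ ≤ C) (hmu : ‖mu‖ = 1)
    {l : ℂ} (hl : Tendsto (fun m : ℕ => mu ^ m) UF (𝓝 l)) (k : ℕ) {x : X} (hx : T x = mu • x) :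
    Qop hrefl hT k x = (l * (mu⁻¹) ^ k) • x := by
  rw [Qop_apply]
  have h1 : (fun m : ℕ => (T ^ (m - k)) x) = fun m : ℕ => mu ^ (m - k) • x := by
    funext m; rw [eig_pow hx]
  rw [h1, uLim_smul_tendsto hrefl (C := ‖x‖) (D := 1) (u := fun _ => x) (fun _ => le_rfl)
    (fun m => by simp [hmu]) (tendsto_pow_sub hmu hl k), uLim_const]

theorem Qop_T (hT : ∀ n : ℕ, ‖T ^ n‖ ≤ C) (k : ℕ) (x : X) :
    Qop hrefl hT (k + 1) (T x) = Qop hrefl hT k x := by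
  rw [Qop_apply, Qop_apply]
  refine uLim_congr' hrefl (C := C * ‖T x‖) (D := C * ‖x‖)
    (fun m => (T ^ (m - (k + 1))).le_of_opNorm_le (hT _) _)
    (fun m => (T ^ (m - k)).le_of_opNorm_le (hT _) _) ?_
  filter_upwards [eventually_ge_atTop (k + 1)] with m hm
  have h1 : m - k = (m - (k + 1)) + 1 := by omega
  rw [h1, pow_succ]
  rfl

/-- The operators playing the role of the inverse powers of `T`. -/
noncomputable def Rop (hT : ∀ n : ℕ, ‖T ^ n‖ ≤ C) (n : ℕ) : X →L[ℂ] X :=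
  opULim hrefl (fun m => Qop hrefl hT (m + n)) C (fun m => Qop_norm hrefl hT (m + n))

theorem Rop_norm (hT : ∀ n : ℕ, ‖T ^ n‖ ≤ C) (n : ℕ) : ‖Rop hrefl hT n‖ ≤ C :=
  norm_opULim_le _ _ _ _

theorem Rop_apply (hT : ∀ n : ℕ, ‖T ^ n‖ ≤ C) (n : ℕ) (x : X) :
    Rop hrefl hT n x = uLim hrefl (fun m => Qop hrefl hT (m + n) x) := rfl

theorem tendsto_inv_pow {z l : ℂ} (_hz : ‖z‖ = 1) (hl1 : ‖l‖ = 1)
    (hl : Tendsto (fun m : ℕ => z ^ m) UF (𝓝 l)) (n : ℕ) :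
    Tendsto (fun m : ℕ => l * (z⁻¹) ^ (m + n)) UF (𝓝 ((z⁻¹) ^ n)) := by
  have hl0 : l ≠ 0 := by intro h; rw [h] at hl1; simp at hl1
  have h1 : Tendsto (fun m : ℕ => l * ((z ^ m)⁻¹ * (z⁻¹) ^ n)) UF (𝓝 (l * (l⁻¹ * (z⁻¹) ^ n))) :=
    ((hl.inv₀ hl0).mul_const _).const_mul l
  have h2 : l * (l⁻¹ * (z⁻¹) ^ n) = (z⁻¹) ^ n := by
    rw [← mul_assoc, mul_inv_cancel₀ hl0, one_mul]
  rw [h2] at h1
  refine h1.congr (fun m => ?_)
  rw [pow_add, inv_pow z m]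

theorem Rop_S (hTS : T * S = lam • (S * T)) (hT : ∀ n : ℕ, ‖T ^ n‖ ≤ C) (hlam : ‖lam‖ = 1)
    (n : ℕ) (x : X) : Rop hrefl hT n (S x) = (lam⁻¹) ^ n • S (Rop hrefl hT n x) := by
  obtain ⟨l, hl1, hl⟩ := exists_lim_pow lam hlam
  have hb : ∀ m, ‖Qop hrefl hT (m + n) x‖ ≤ C * ‖x‖ := fun m =>
    (Qop hrefl hT (m + n)).le_of_opNorm_le (Qop_norm _ _ _) x
  have hb' : ∀ m, ‖S (Qop hrefl hT (m + n) x)‖ ≤ ‖S‖ * (C * ‖x‖) := fun m =>
    (S.le_opNorm _).trans (by gcongr; exact hb m)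
  rw [Rop_apply, Rop_apply, ← uLim_map hrefl hb S,
    ← uLim_smul_tendsto hrefl hb' (D := 1) (a := fun m => l * (lam⁻¹) ^ (m + n))
    (fun m => by simp [hlam, hl1]) (tendsto_inv_pow hlam hl1 hl n)]
  congr 1
  funext m
  rw [Qop_S hrefl hTS hT hlam hl]

theorem Rop_eig (hT : ∀ n : ℕ, ‖T ^ n‖ ≤ C) (hmu : ‖mu‖ = 1) (n : ℕ) {x : X}
    (hx : T x = mu • x) : Rop hrefl hT n x = (mu⁻¹) ^ n • x := by
  obtain ⟨l, hl1, hl⟩ := exists_lim_pow mu hmu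
  rw [Rop_apply]
  have h1 : (fun m : ℕ => Qop hrefl hT (m + n) x) = fun m : ℕ => (l * (mu⁻¹) ^ (m + n)) • x := by
    funext m; rw [Qop_eig hrefl hT hmu hl (m + n) hx]
  rw [h1, uLim_smul_tendsto hrefl (C := ‖x‖) (D := 1) (u := fun _ => x) (fun _ => le_rfl)
    (fun m => by simp [hmu, hl1]) (tendsto_inv_pow hmu hl1 hl n), uLim_const]

theorem Rop_T (hT : ∀ n : ℕ, ‖T ^ n‖ ≤ C) (n : ℕ) (x : X) :
    Rop hrefl hT (n + 1) (T x) = Rop hrefl hT n x := by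
  rw [Rop_apply, Rop_apply]
  congr 1
  funext m
  exact Qop_T hrefl hT (m + n) x

theorem hom_bound (hT : ∀ n : ℕ, ‖T ^ n‖ ≤ C) (A : X →L[ℂ] X) {σ : ℂ} (hσ : ‖σ‖ = 1) (n : ℕ) :
    ‖σ ^ n • (T ^ n * A * Rop hrefl hT n)‖ ≤ C * ‖A‖ * C := by
  have hC0 : 0 ≤ C := (norm_nonneg _).trans (hT 0)
  rw [norm_smul, norm_pow, hσ, one_pow, one_mul]
  calc ‖T ^ n * A * Rop hrefl hT n‖ ≤ ‖T ^ n * A‖ * ‖Rop hrefl hT n‖ := norm_mul_le _ _
    _ ≤ (‖T ^ n‖ * ‖A‖) * ‖Rop hrefl hT n‖ := by gcongr; exact norm_mul_le _ _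
    _ ≤ (C * ‖A‖) * C := by
        apply mul_le_mul _ (Rop_norm _ _ _) (norm_nonneg _) (by positivity)
        gcongr; exact hT n

/-- Homogenisation of `A`. -/
noncomputable def homog (hT : ∀ n : ℕ, ‖T ^ n‖ ≤ C) (A : X →L[ℂ] X) (σ : ℂ) (hσ : ‖σ‖ = 1) :
    X →L[ℂ] X :=
  opCLim hrefl (fun n => σ ^ n • (T ^ n * A * Rop hrefl hT n)) (C * ‖A‖ * C)
    (hom_bound hrefl hT A hσ)

theorem homog_comm (hTS : T * S = lam • (S * T)) (hT : ∀ n : ℕ, ‖T ^ n‖ ≤ C) (hlam : ‖lam‖ = 1)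
    {A : X →L[ℂ] X} (hA : A * S = S * A) (σ : ℂ) (hσ : ‖σ‖ = 1) :
    homog hrefl hT A σ hσ * S = S * homog hrefl hT A σ hσ := by
  have hlam0 : lam ≠ 0 := by intro h; rw [h] at hlam; simp at hlam
  apply opCLim_commute
  intro n
  ext x
  show σ ^ n • (T ^ n) (A (Rop hrefl hT n (S x))) = S (σ ^ n • (T ^ n) (A (Rop hrefl hT n x)))
  rw [Rop_S hrefl hTS hT hlam, map_smul, comm_apply hA, map_smul, skew_pow hTS, smul_smul,
    ← mul_pow, smul_smul, ← mul_pow, mul_assoc, inv_mul_cancel₀ hlam0, mul_one, map_smul]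

theorem homog_eig (hT : ∀ n : ℕ, ‖T ^ n‖ ≤ C) (hmu : ‖mu‖ = 1)
    (A : X →L[ℂ] X) (σ : ℂ) (hσ : ‖σ‖ = 1) (ν : ℂ) (hν : ‖ν‖ = 1) (hνσ : ν * σ = mu) {x : X}
    (hx : T x = mu • x) :
    homog hrefl hT A σ hσ x = ergProj hrefl hT ν hν (A x) := by
  have hσ0 : σ ≠ 0 := by intro h; rw [h] at hσ; simp at hσ
  have hν0 : ν ≠ 0 := by intro h; rw [h] at hν; simp at hν
  rw [ergProj_apply]
  show cLim hrefl (fun n => (σ ^ n • (T ^ n * A * Rop hrefl hT n)) x) = _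
  congr 1
  funext n
  show σ ^ n • (T ^ n) (A (Rop hrefl hT n x)) = _
  rw [Rop_eig hrefl hT hmu n hx, map_smul, map_smul, smul_smul, ← mul_pow, ← hνσ]
  congr 2
  field_simp

theorem homog_T (hT : ∀ n : ℕ, ‖T ^ n‖ ≤ C) (A : X →L[ℂ] X) (σ : ℂ) (hσ : ‖σ‖ = 1) :
    T * homog hrefl hT A σ hσ = σ⁻¹ • (homog hrefl hT A σ hσ * T) := by
  have hσ0 : σ ≠ 0 := by intro h; rw [h] at hσ; simp at hσ
  ext x
  show T (cLim hrefl (fun n => (σ ^ n • (T ^ n * A * Rop hrefl hT n)) x)) =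
    σ⁻¹ • cLim hrefl (fun n => (σ ^ n • (T ^ n * A * Rop hrefl hT n)) (T x))
  have hb : ∀ y : X, ∀ n, ‖(σ ^ n • (T ^ n * A * Rop hrefl hT n)) y‖ ≤ (C * ‖A‖ * C) * ‖y‖ :=
    fun y n => ContinuousLinearMap.le_of_opNorm_le _ (hom_bound hrefl hT A hσ n) y
  rw [← cLim_map hrefl (hb x) T, ← cLim_shift hrefl (hb (T x)),
    ← cLim_smul hrefl (fun n => hb (T x) (n + 1))]
  congr 1
  funext n
  show T (σ ^ n • (T ^ n) (A (Rop hrefl hT n x))) =
    σ⁻¹ • (σ ^ (n + 1) • (T ^ (n + 1)) (A (Rop hrefl hT (n + 1) (T x))))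
  rw [Rop_T, map_smul, smul_smul]
  have h1 : T ((T ^ n) (A (Rop hrefl hT n x))) = (T ^ (n + 1)) (A (Rop hrefl hT n x)) := by
    rw [pow_succ']; rfl
  rw [h1]
  congr 1
  rw [pow_succ]
  field_simp

end main

end Pool.Agent.Lib_helper15
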