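import Pool.Agent.Lib_helper15.ULim

/-!
Weak operator limits and Cesàro limits in a reflexive space (helper15).
-/

set_option autoImplicit false

open Filter Topology

namespace Pool.Agent.Lib_helper15

variable {X : Type*} [NormedAddCommGroup X] [NormedSpace ℂ X]
variable (hrefl : Function.Surjective (NormedSpace.inclusionInDoubleDual ℂ X))

/-- Weak operator limit along `UF` of a bounded sequence. -/
noncomputable def opULim (A : ℕ → X →L[ℂ] X) (C : ℝ) (hC : ∀ n, ‖A n‖ ≤ C) : X →L[ℂ] X :=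
  LinearMap.mkContinuous
    { toFun := fun x => uLim hrefl (fun n => A n x)
      map_add' := fun x y => by
        rw [← uLim_add hrefl (fun n => (A n).le_of_opNorm_le (hC n) x)
          (fun n => (A n).le_of_opNorm_le (hC n) y)]
        simp only [map_add]
      map_smul' := fun a x => by
        rw [RingHom.id_apply, ← uLim_smul hrefl (fun n => (A n).le_of_opNorm_le (hC n) x)]
        simp only [map_smul] } C
    (fun x => norm_uLim_le hrefl (fun n => (A n).le_of_opNorm_le (hC n) x))

theorem opULim_apply (A : ℕ → X →L[ℂ] X) (C : ℝ) (hC : ∀ n, ‖A n‖ ≤ C) (x : X) :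
    opULim hrefl A C hC x = uLim hrefl (fun n => A n x) := rfl

theorem norm_opULim_le (A : ℕ → X →L[ℂ] X) (C : ℝ) (hC : ∀ n, ‖A n‖ ≤ C) :
    ‖opULim hrefl A C hC‖ ≤ C :=
  LinearMap.mkContinuous_norm_le _ ((norm_nonneg _).trans (hC 0)) _

/-- Cesàro weak operator limit along `UF` of a bounded sequence. -/
noncomputable def opCLim (A : ℕ → X →L[ℂ] X) (C : ℝ) (hC : ∀ n, ‖A n‖ ≤ C) : X →L[ℂ] X :=
  LinearMap.mkContinuous
    { toFun := fun x => cLim hrefl (fun n => A n x)
      map_add' := fun x y => by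
        rw [← cLim_add hrefl (fun n => (A n).le_of_opNorm_le (hC n) x)
          (fun n => (A n).le_of_opNorm_le (hC n) y)]
        simp only [map_add]
      map_smul' := fun a x => by
        rw [RingHom.id_apply, ← cLim_smul hrefl (fun n => (A n).le_of_opNorm_le (hC n) x)]
        simp only [map_smul] } C
    (fun x => norm_cLim_le hrefl (fun n => (A n).le_of_opNorm_le (hC n) x))

theorem opCLim_apply (A : ℕ → X →L[ℂ] X) (C : ℝ) (hC : ∀ n, ‖A n‖ ≤ C) (x : X) :
    opCLim hrefl A C hC x = cLim hrefl (fun n => A n x) := rfl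

theorem norm_opCLim_le (A : ℕ → X →L[ℂ] X) (C : ℝ) (hC : ∀ n, ‖A n‖ ≤ C) :
    ‖opCLim hrefl A C hC‖ ≤ C :=
  LinearMap.mkContinuous_norm_le _ ((norm_nonneg _).trans (hC 0)) _

theorem opCLim_commute (A : ℕ → X →L[ℂ] X) (C : ℝ) (hC : ∀ n, ‖A n‖ ≤ C) (S : X →L[ℂ] X)
    (h : ∀ n, A n * S = S * A n) : opCLim hrefl A C hC * S = S * opCLim hrefl A C hC := by
  ext x
  show opCLim hrefl A C hC (S x) = S (opCLim hrefl A C hC x)
  rw [opCLim_apply, opCLim_apply, ← cLim_map hrefl (fun n => (A n).le_of_opNorm_le (hC n) x)]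
  congr 1
  funext n
  have := congrArg (fun T : X →L[ℂ] X => T x) (h n)
  simpa using this

end Pool.Agent.Lib_helper15
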