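import Pool.Agent.Lib_helper15.Support

/-!
A commutative commutant with a positive functional on squares of real operators has a nontrivial
invariant subspace (argument of Atzmon and Godefroy, in reflexive spaces) (helper15).
-/

set_option autoImplicit false

open Filter Topology

namespace Pool.Agent.Lib_helper15

variable {X : Type*} [NormedAddCommGroup X] [NormedSpace ℂ X]

theorem conj_two : (starRingEnd ℂ) (2 : ℂ) = 2 := map_ofNat _ 2

/-- The functionals that are nonnegative on the squares of real operators of the commutant, applied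
to `x₀`, and are purely imaginary on `i` times real vectors. -/
def posFun (J : X →SL[starRingEnd ℂ] X) (S : X →L[ℂ] X) (x₀ : X) : Set (StrongDual ℂ X) :=
  {g | (∀ A : X →L[ℂ] X, A * S = S * A → (∀ x, J (A x) = A (J x)) → 0 ≤ (g (A (A x₀))).re) ∧
    ∀ x, J x = x → (g (Complex.I • x)).re = 0}

theorem posFun_square {J : X →SL[starRingEnd ℂ] X} {S : X →L[ℂ] X} {x₀ : X}
    (hcomm : ∀ A B : X →L[ℂ] X, A * S = S * A → B * S = S * B → A * B = B * A)
    {g : StrongDual ℂ X} (hg : g ∈ posFun J S x₀) {A : X →L[ℂ] X} (hA : A * S = S * A)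
    (hAJ : ∀ x, J (A x) = A (J x)) : g.comp (A * A) ∈ posFun J S x₀ := by
  refine ⟨?_, ?_⟩
  · intro B hB hBJ
    have hAB : A * B = B * A := hcomm A B hA hB
    have hABS : (A * B) * S = S * (A * B) := by
      rw [mul_assoc, hB, ← mul_assoc, hA, mul_assoc]
    have hABJ : ∀ x, J ((A * B) x) = (A * B) (J x) := by
      intro x
      show J (A (B x)) = A (B (J x))
      rw [hAJ, hBJ]
    have h1 := hg.1 (A * B) hABS hABJ
    have h2 : (g.comp (A * A)) (B (B x₀)) = g ((A * B) ((A * B) x₀)) := by
      show g (A (A (B (B x₀)))) = g (A (B (A (B x₀))))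
      have : A (B (B x₀)) = B (A (B x₀)) := by
        have := congrArg (fun T : X →L[ℂ] X => T (B x₀)) hAB
        simpa using this
      rw [this]
    rw [h2]
    exact h1
  · intro x hx
    have h1 := hg.2 (A (A x)) (by rw [hAJ, hAJ, hx])
    have h2 : (g.comp (A * A)) (Complex.I • x) = g (Complex.I • A (A x)) := by
      show g (A (A (Complex.I • x))) = _
      rw [map_smul, map_smul]
    rw [h2]
    exact h1

theorem dualCone_square {J : X →SL[starRingEnd ℂ] X} {S : X →L[ℂ] X} {x₀ : X}
    (hcomm : ∀ A B : X →L[ℂ] X, A * S = S * A → B * S = S * B → A * B = B * A)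
    {y : X} (hy : y ∈ dualCone (posFun J S x₀)) {A : X →L[ℂ] X} (hA : A * S = S * A)
    (hAJ : ∀ x, J (A x) = A (J x)) : A (A y) ∈ dualCone (posFun J S x₀) := by
  intro g hg
  exact hy _ (posFun_square hcomm hg hA hAJ)

theorem imag_mem_dualCone {J : X →SL[starRingEnd ℂ] X} {S : X →L[ℂ] X} {x₀ : X} {x : X}
    (hx : J x = x) : Complex.I • x ∈ dualCone (posFun J S x₀) := by
  intro g hg
  rw [hg.2 x hx]

theorem x₀_mem_dualCone {J : X →SL[starRingEnd ℂ] X} {S : X →L[ℂ] X} {x₀ : X} :
    x₀ ∈ dualCone (posFun J S x₀) := by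
  intro g hg
  have := hg.1 1 (by simp) (by intro x; rfl)
  simpa using this

/-- A boundary real vector: there are real vectors outside of the cone arbitrarily close to some
nonzero real vector of the cone. -/
theorem exists_boundary {J : X →SL[starRingEnd ℂ] X} {S : X →L[ℂ] X} {x₀ x₁ : X}
    (hx₀ : J x₀ = x₀) (hx₁ : J x₁ = x₁)
    (hout : -x₀ + x₁ ∉ dualCone (posFun J S x₀))
    (hind : ∀ s : ℝ, (1 - 2 * s : ℝ) • x₀ + s • x₁ ≠ 0) :
    ∃ c : X, J c = c ∧ c ≠ 0 ∧ c ∈ dualCone (posFun J S x₀) ∧
      ∀ δ : ℝ, 0 < δ → ∃ z : X, z ∉ dualCone (posFun J S x₀) ∧ ‖z - c‖ < δ := by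
  set D := dualCone (posFun J S x₀) with hD
  let γ : ℝ → X := fun s => (1 - 2 * s : ℝ) • x₀ + s • x₁
  have hγ : Continuous γ := by fun_prop
  set I : Set ℝ := {s | s ∈ Set.Icc (0 : ℝ) 1 ∧ γ s ∈ D} with hI
  have hIc : IsClosed I := isClosed_Icc.inter ((dualCone_isClosed _).preimage hγ)
  have h0 : (0 : ℝ) ∈ I := by
    refine ⟨by simp, ?_⟩
    have : γ 0 = x₀ := by simp [γ]
    rw [this]
    exact x₀_mem_dualCone
  have hbdd : BddAbove I := ⟨1, fun s hs => hs.1.2⟩
  have hs : sSup I ∈ I := hIc.csSup_mem ⟨0, h0⟩ hbdd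
  set t := sSup I with ht
  have ht1 : t < 1 := by
    rcases hs.1.2.lt_or_eq with h | h
    · exact h
    · exfalso
      apply hout
      have h2 := hs.2
      rw [h] at h2
      have : γ 1 = -x₀ + x₁ := by
        simp only [γ]
        norm_num
      rwa [this] at h2
  refine ⟨γ t, ?_, hind t, hs.2, ?_⟩
  · simp only [γ]
    have hr : ∀ (a : ℝ) (x : X), J x = x → J (a • x) = a • x := by
      intro a x hx
      have h1 : a • x = (a : ℂ) • x := rfl
      rw [h1, map_smulₛₗ, hx]
      simp
    rw [map_add, hr _ _ hx₀, hr _ _ hx₁]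
  · intro δ hδ
    have hcont := (hγ.tendsto t)
    rw [Metric.tendsto_nhds_nhds] at hcont
    obtain ⟨η, hη, hηδ⟩ := hcont δ hδ
    set s := min (t + η / 2) 1 with hsdef
    have hts : t < s := lt_min (by linarith) ht1
    refine ⟨γ s, ?_, ?_⟩
    · intro hmem
      have hsI : s ∈ I := ⟨⟨hs.1.1.trans hts.le, min_le_right _ _⟩, hmem⟩
      have := le_csSup hbdd hsI
      linarith
    · rw [← dist_eq_norm]
      apply hηδ
      rw [Real.dist_eq, abs_of_pos (by linarith)]
      have : s ≤ t + η / 2 := min_le_left _ _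
      linarith

/-- The hyperinvariant subspace theorem for commutative commutants with a positive functional. -/
theorem commutative_positive [CompleteSpace X]
    (hrefl : Function.Surjective (NormedSpace.inclusionInDoubleDual ℂ X))
    (J : X →SL[starRingEnd ℂ] X) (hJJ : ∀ x, J (J x) = x)
    (S : X →L[ℂ] X) (hSJ : ∀ x, J (S x) = S (J x))
    (hcomm : ∀ A B : X →L[ℂ] X, A * S = S * A → B * S = S * B → A * B = B * A)
    (x₀ x₁ : X) (hx₀ : J x₀ = x₀) (hx₁ : J x₁ = x₁)
    (g₀ : StrongDual ℂ X) (hg₀ : g₀ ∈ posFun J S x₀)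
    (hgx₀ : 0 < (g₀ x₀).re) (hgx₁ : g₀ x₁ = 0)
    (hind : ∀ s : ℝ, (1 - 2 * s : ℝ) • x₀ + s • x₁ ≠ 0) :
    HasNontrivialHyperinvariantSubspace S := by
  classical
  set D := dualCone (posFun J S x₀) with hD
  have hout : -x₀ + x₁ ∉ D := by
    intro hmem
    have := hmem g₀ hg₀
    rw [map_add, map_neg, hgx₁, add_zero, Complex.neg_re] at this
    linarith
  obtain ⟨c, hc, hc0, hcD, hcb⟩ := exists_boundary hx₀ hx₁ hout hind
  set δ : ℝ := 2 * ‖c‖ / (1 + ‖J‖) with hδ
  have hJ0 : 0 < 1 + ‖J‖ := by positivity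
  have hc1 : 0 < ‖c‖ := norm_pos_iff.mpr hc0
  have hδ0 : 0 < δ := by positivity
  obtain ⟨z, hz, hzc⟩ := hcb (δ / 2) (by positivity)
  obtain ⟨y, hyD, hyz, g, hgD, hgy, hgz⟩ := exists_support hrefl _ z hz
  have hyz' : ‖z - y‖ < δ / 2 := by
    rw [hyz]
    refine lt_of_le_of_lt (Metric.infDist_le_dist_of_mem hcD) ?_
    rwa [dist_eq_norm]
  -- the real part of y is nonzero
  have hreal : y + J y ≠ 0 := by
    intro h0
    have h1 : (2 : ℂ) • c = (c - y) + J (c - y) := by
      rw [map_sub, hc]
      have h2 : c - y + (c - J y) = (c + c) - (y + J y) := by abel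
      rw [h2, h0, sub_zero, two_smul]
    have h2 : ‖c - y‖ < δ := by
      calc ‖c - y‖ = ‖(z - y) - (z - c)‖ := by congr 1; abel
        _ ≤ ‖z - y‖ + ‖z - c‖ := norm_sub_le _ _
        _ < δ := by linarith
    have h3 : 2 * ‖c‖ ≤ (1 + ‖J‖) * ‖c - y‖ := by
      calc 2 * ‖c‖ = ‖(2 : ℂ) • c‖ := by rw [norm_smul]; simp
        _ = ‖(c - y) + J (c - y)‖ := by rw [h1]
        _ ≤ ‖c - y‖ + ‖J (c - y)‖ := norm_add_le _ _
        _ ≤ ‖c - y‖ + ‖J‖ * ‖c - y‖ := by gcongr; exact J.le_opNorm _
        _ = (1 + ‖J‖) * ‖c - y‖ := by ring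
    have h4 : (1 + ‖J‖) * ‖c - y‖ < (1 + ‖J‖) * δ := by gcongr
    have h5 : (1 + ‖J‖) * δ = 2 * ‖c‖ := by
      rw [hδ]; field_simp
    linarith
  -- g is purely imaginary on i times real vectors
  have hgi : ∀ x, J x = x → (g (Complex.I • x)).re = 0 := by
    intro x hx
    have h1 := hgD _ (imag_mem_dualCone (S := S) (x₀ := x₀) hx)
    have h2 := hgD _ (imag_mem_dualCone (S := S) (x₀ := x₀) (J := J) (x := -x)
      (by rw [map_neg, hx]))
    rw [smul_neg, map_neg, Complex.neg_re] at h2
    linarith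
  -- decomposition of y
  set c' : X := (1 / 2 : ℂ) • (y + J y) with hc'
  set u' : X := (-Complex.I / 2) • (y - J y) with hu'
  have hc'J : J c' = c' := by
    rw [hc', map_smulₛₗ, map_add, hJJ, add_comm (J y) y]
    congr 1
    simp [conj_two]
  have hu'J : J u' = u' := by
    rw [hu', map_smulₛₗ, map_sub, hJJ]
    have h1 : (starRingEnd ℂ) (-Complex.I / 2) = Complex.I / 2 := by
      simp [conj_two]
    rw [h1]
    have h2 : J y - y = -(y - J y) := by abel
    rw [h2, smul_neg, ← neg_smul]
    congr 1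
    ring
  have hdec : y = c' + Complex.I • u' := by
    rw [hc', hu', smul_smul]
    have h1 : Complex.I * (-Complex.I / 2) = 1 / 2 := by
      have := Complex.I_mul_I
      linear_combination (-1 / 2 : ℂ) * this
    rw [h1, ← smul_add]
    have h2 : y + J y + (y - J y) = (2 : ℂ) • y := by rw [two_smul]; abel
    rw [h2, smul_smul]
    norm_num
  have hc'0 : c' ≠ 0 := by
    rw [hc']
    exact smul_ne_zero (by norm_num) hreal
  -- real operators
  have hAy : ∀ A : X →L[ℂ] X, A * S = S * A → (∀ x, J (A x) = A (J x)) → (g (A y)).re = 0 := by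
    intro A hA hAJ
    have hq : ∀ ε : ℝ, 0 ≤ 2 * ε * (g (A y)).re + ε ^ 2 * (g (A (A y))).re := by
      intro ε
      set B : X →L[ℂ] X := 1 + (ε : ℂ) • A with hB
      have hBS : B * S = S * B := by
        rw [hB, add_mul, mul_add, smul_mul_assoc, hA, mul_smul_comm, one_mul, mul_one]
      have hBJ : ∀ x, J (B x) = B (J x) := by
        intro x
        rw [hB]
        simp only [add_apply, one_apply_eq_self,
          smul_apply, map_add, map_smulₛₗ, hAJ]
        simp
      have h1 := hgD _ (dualCone_square hcomm hyD hBS hBJ)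
      have h2 : B (B y) = y + (2 * ε : ℂ) • A y + ((ε : ℂ) ^ 2) • A (A y) := by
        rw [hB]
        simp only [add_apply, one_apply_eq_self,
          smul_apply, map_add, map_smul]
        rw [smul_add, smul_smul, mul_smul (2 : ℂ), two_smul, pow_two]
        abel
      rw [h2, map_add, map_add, map_smul, map_smul, Complex.add_re, Complex.add_re, hgy,
        zero_add] at h1
      have h3 : ((2 * ε : ℂ) • g (A y)).re = 2 * ε * (g (A y)).re := by
        simp
      have h4 : (((ε : ℂ) ^ 2) • g (A (A y))).re = ε ^ 2 * (g (A (A y))).re := by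
        rw [smul_eq_mul, ← Complex.ofReal_pow, Complex.re_ofReal_mul]
      rw [h3, h4] at h1
      exact h1
    set p := (g (A y)).re
    set q := (g (A (A y))).re
    by_contra hp
    -- choose ε = - p / (|q| + 1) * ...
    have h1 := hq (-p / (|q| + 1))
    have hq1 : 0 < |q| + 1 := by positivity
    have h2 : 2 * (-p / (|q| + 1)) * p + (-p / (|q| + 1)) ^ 2 * q =
        (p ^ 2 / (|q| + 1)) * (-2 + q / (|q| + 1)) := by
      field_simp
    rw [h2] at h1
    have h3 : 0 < p ^ 2 / (|q| + 1) := by positivity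
    have h4 : q / (|q| + 1) < 1 := by
      rw [div_lt_one hq1]
      have := le_abs_self q
      linarith
    have h5 : (p ^ 2 / (|q| + 1)) * (-2 + q / (|q| + 1)) < 0 := by
      apply mul_neg_of_pos_of_neg h3
      linarith
    linarith
  have hAc' : ∀ A : X →L[ℂ] X, A * S = S * A → (∀ x, J (A x) = A (J x)) →
      (g (A c')).re = 0 := by
    intro A hA hAJ
    have h1 := hAy A hA hAJ
    have h2 : A y = A c' + Complex.I • A u' := by
      have h3 : A y = A (c' + Complex.I • u') := congrArg A hdec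
      rw [h3, A.map_add c', A.map_smul Complex.I u']
    rw [h2, map_add, Complex.add_re, hgi (A u') (by rw [hAJ, hu'J]), add_zero] at h1
    exact h1
  -- all operators of the commutant
  have hall : ∀ A : X →L[ℂ] X, A * S = S * A → (g (A c')).re = 0 := by
    intro A hA
    let A' : X →L[ℂ] X := J.comp (A.comp J)
    have hA'x : ∀ x, A' x = J (A (J x)) := fun x => rfl
    have hA' : A' * S = S * A' := by
      ext x
      show J (A (J (S x))) = S (J (A (J x)))
      rw [hSJ, ← hSJ (A (J x))]
      have := congrArg (fun T : X →L[ℂ] X => T (J x)) hA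
      have h2 : A (S (J x)) = S (A (J x)) := by simpa using this
      rw [h2]
    set A₁ : X →L[ℂ] X := (1 / 2 : ℂ) • (A + A') with hA₁
    set A₂ : X →L[ℂ] X := (-Complex.I / 2) • (A - A') with hA₂
    have hA₁S : A₁ * S = S * A₁ := by
      rw [hA₁, smul_mul_assoc, add_mul, hA, hA', mul_smul_comm, mul_add]
    have hA₂S : A₂ * S = S * A₂ := by
      rw [hA₂, smul_mul_assoc, sub_mul, hA, hA', mul_smul_comm, mul_sub]
    have hA₁J : ∀ x, J (A₁ x) = A₁ (J x) := by
      intro x
      rw [hA₁]
      simp only [smul_apply, add_apply, hA'x,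
        map_smulₛₗ, map_add, hJJ]
      rw [add_comm (J (A x))]
      simp [conj_two]
    have hA₂J : ∀ x, J (A₂ x) = A₂ (J x) := by
      intro x
      rw [hA₂]
      simp only [smul_apply, sub_apply, hA'x,
        map_smulₛₗ, map_sub, hJJ]
      have h1 : (starRingEnd ℂ) (-Complex.I / 2) = Complex.I / 2 := by
        simp [conj_two]
      rw [h1]
      have h2 : J (A x) - A (J x) = -(A (J x) - J (A x)) := by abel
      rw [h2, smul_neg, ← neg_smul]
      congr 1
      ring
    have hdecA : A c' = A₁ c' + Complex.I • A₂ c' := by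
      rw [hA₁, hA₂]
      simp only [smul_apply, add_apply,
        sub_apply]
      rw [smul_smul]
      have h1 : Complex.I * (-Complex.I / 2) = 1 / 2 := by
        have := Complex.I_mul_I
        linear_combination (-1 / 2 : ℂ) * this
      rw [h1, ← smul_add]
      have h2 : A c' + A' c' + (A c' - A' c') = (2 : ℂ) • A c' := by rw [two_smul]; abel
      rw [h2, smul_smul]
      norm_num
    rw [hdecA, map_add, Complex.add_re, hAc' A₁ hA₁S hA₁J, zero_add]
    exact hgi _ (by rw [hA₂J, hc'J])
  -- conclusion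
  by_contra hno
  let ev : (X →L[ℂ] X) →ₗ[ℂ] X :=
    { toFun := fun A => A c'
      map_add' := by intro A B; simp
      map_smul' := by intro c A; simp }
  let N : Submodule ℂ X := (commutantSubmodule S).map ev
  have hN : ∀ A : X →L[ℂ] X, A * S = S * A → ∀ x ∈ N, A x ∈ N := by
    intro B hB x hx
    obtain ⟨A, hA, rfl⟩ := hx
    refine ⟨B * A, ?_, rfl⟩
    show B * A * S = S * (B * A)
    have hA' : A * S = S * A := hA
    rw [mul_assoc, hA', ← mul_assoc, hB, mul_assoc]
  have hne : N ≠ ⊥ := by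
    intro hbot
    have h1 : c' ∈ N := ⟨1, by show (1 : X →L[ℂ] X) * S = S * 1; simp, by simp [ev]⟩
    rw [hbot] at h1
    exact hc'0 (by simpa using h1)
  have htop := closure_eq_top_of_invariant hno N hN hne
  have hcl : IsClosed {x : X | (g x).re = 0} :=
    isClosed_eq (Complex.continuous_re.comp g.continuous) continuous_const
  have hsub : (N : Set X) ⊆ {x : X | (g x).re = 0} := by
    rintro x ⟨A, hA, rfl⟩
    exact hall A hA
  have hzN : z ∈ closure (N : Set X) := by
    have : z ∈ N.topologicalClosure := by rw [htop]; trivial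
    exact this
  have := closure_minimal hsub hcl hzN
  have h0 : (g z).re = 0 := this
  linarith

end Pool.Agent.Lib_helper15
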