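import Pool.Agent.Lib_helper15.ULim

/-!
Support points of closed convex cones in reflexive spaces (helper15).
-/

set_option autoImplicit false

open Filter Topology

namespace Pool.Agent.Lib_helper15

variable {X : Type*} [NormedAddCommGroup X] [NormedSpace ℂ X]

/-- The closed convex cone of the vectors on which all functionals of `P` have nonnegative real
part. -/
def dualCone (P : Set (StrongDual ℂ X)) : Set X := {x | ∀ f ∈ P, 0 ≤ (f x).re}

theorem dualCone_zero (P : Set (StrongDual ℂ X)) : (0 : X) ∈ dualCone P := by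
  intro f _
  simp

theorem dualCone_isClosed (P : Set (StrongDual ℂ X)) : IsClosed (dualCone P) := by
  have : dualCone P = ⋂ f ∈ P, {x : X | 0 ≤ (f x).re} := by
    ext x
    simp [dualCone]
  rw [this]
  refine isClosed_biInter (fun f _ => ?_)
  exact isClosed_le continuous_const (Complex.continuous_re.comp f.continuous)

theorem dualCone_convex (P : Set (StrongDual ℂ X)) : Convex ℝ (dualCone P) := by
  intro x hx y hy a b ha hb hab f hf
  have h1 : (f (a • x + b • y)).re = a * (f x).re + b * (f y).re := by
    have : f (a • x + b • y) = (a : ℂ) * f x + (b : ℂ) * f y := by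
      rw [map_add]
      congr 1
      · have : a • x = (a : ℂ) • x := rfl
        rw [this, map_smul]; rfl
      · have : b • y = (b : ℂ) • y := rfl
        rw [this, map_smul]; rfl
    rw [this]
    simp
  rw [h1]
  have h2 := hx f hf
  have h3 := hy f hf
  positivity

/-- Nearest points of such cones exist in reflexive spaces and are support points. -/
theorem exists_support [CompleteSpace X]
    (hrefl : Function.Surjective (NormedSpace.inclusionInDoubleDual ℂ X))
    (P : Set (StrongDual ℂ X)) (z : X) (hz : z ∉ dualCone P) :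
    ∃ y ∈ dualCone P, ‖z - y‖ = Metric.infDist z (dualCone P) ∧
      ∃ g : StrongDual ℂ X, (∀ b ∈ dualCone P, 0 ≤ (g b).re) ∧ (g y).re = 0 ∧ (g z).re < 0 := by
  classical
  set d := Metric.infDist z (dualCone P) with hd
  have hne : (dualCone P).Nonempty := ⟨0, dualCone_zero P⟩
  have hd0 : 0 ≤ d := Metric.infDist_nonneg
  -- minimizing sequence
  have hmin : ∀ n : ℕ, ∃ y ∈ dualCone P, ‖z - y‖ < d + 1 / ((n : ℝ) + 1) := by
    intro n
    have : d < d + 1 / ((n : ℝ) + 1) := by
      have : (0 : ℝ) < 1 / ((n : ℝ) + 1) := by positivity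
      linarith
    obtain ⟨y, hy, hyd⟩ := (Metric.infDist_lt_iff hne).mp this
    exact ⟨y, hy, by rwa [dist_eq_norm] at hyd⟩
  choose u hu hud using hmin
  have hub : ∀ n, ‖u n‖ ≤ ‖z‖ + (d + 1) := by
    intro n
    have h1 : (1 : ℝ) / ((n : ℝ) + 1) ≤ 1 := by
      rw [div_le_one (by positivity)]
      have : (0 : ℝ) ≤ n := Nat.cast_nonneg n
      linarith
    calc ‖u n‖ = ‖z - (z - u n)‖ := by congr 1; abel
      _ ≤ ‖z‖ + ‖z - u n‖ := norm_sub_le _ _
      _ ≤ ‖z‖ + (d + 1) := by
          have := (hud n).le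
          linarith
  obtain ⟨y, _, hy⟩ := exists_weak_ulim hrefl UF u _ hub
  have hyC : y ∈ dualCone P := by
    intro f hf
    have h1 : Tendsto (fun n => (f (u n)).re) UF (𝓝 (f y).re) :=
      (Complex.continuous_re.tendsto _).comp (hy f)
    exact ge_of_tendsto' h1 (fun n => hu n f hf)
  have hyd : ‖z - y‖ ≤ d := by
    by_cases hzy : z - y = 0
    · rw [hzy, norm_zero]; exact hd0
    · obtain ⟨g, hg1, hg2⟩ := exists_dual_vector ℂ (z - y) (norm_ne_zero_iff.mpr hzy)
      have h1 : Tendsto (fun n => ‖g (z - u n)‖) UF (𝓝 ‖g (z - y)‖) := by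
        have : Tendsto (fun n => g z - g (u n)) UF (𝓝 (g z - g y)) := (hy g).const_sub (g z)
        simpa only [map_sub] using this.norm
      have h2 : Tendsto (fun n : ℕ => d + 1 / ((n : ℝ) + 1)) UF (𝓝 (d + 0)) :=
        (tendsto_const_nhds.add tendsto_one_div_add_atTop_nhds_zero_nat).mono_left UF_le_atTop
      have h3 : ‖g (z - y)‖ ≤ d + 0 := by
        refine le_of_tendsto_of_tendsto' h1 h2 (fun n => ?_)
        calc ‖g (z - u n)‖ ≤ ‖g‖ * ‖z - u n‖ := g.le_opNorm _
          _ = ‖z - u n‖ := by rw [hg1, one_mul]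
          _ ≤ _ := (hud n).le
      rw [hg2] at h3
      simpa using h3
  have hyd' : ‖z - y‖ = d := by
    refine le_antisymm hyd ?_
    rw [← dist_eq_norm]
    exact Metric.infDist_le_dist_of_mem hyC
  have hdpos : 0 < d := by
    rcases hd0.lt_or_eq with h | h
    · exact h
    · exfalso
      rw [← h] at hyd'
      have : z = y := sub_eq_zero.mp (norm_eq_zero.mp hyd')
      exact hz (this ▸ hyC)
  refine ⟨y, hyC, hyd', ?_⟩
  -- separation
  have hdisj : Disjoint (Metric.ball z d) (dualCone P) := by
    rw [Set.disjoint_left]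
    intro x hx hxC
    have h1 : d ≤ dist z x := Metric.infDist_le_dist_of_mem hxC
    rw [Metric.mem_ball, dist_comm] at hx
    linarith
  obtain ⟨g, t, hg1, hg2⟩ := RCLike.geometric_hahn_banach_open (𝕜 := ℂ)
    (convex_ball z d) Metric.isOpen_ball (dualCone_convex P) hdisj
  have hg1' : ∀ a ∈ Metric.ball z d, (g a).re < t := hg1
  have hg2' : ∀ b ∈ dualCone P, t ≤ (g b).re := hg2
  have ht0 : t ≤ 0 := by simpa using hg2' 0 (dualCone_zero P)
  have hyt : (g y).re ≤ t := by
    -- y is in the closure of the ball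
    have hyball : y ∈ closure (Metric.ball z d) := by
      rw [closure_ball z hdpos.ne', Metric.mem_closedBall, dist_comm, dist_eq_norm]
      exact hyd
    have hcl : IsClosed {x : X | (g x).re ≤ t} :=
      isClosed_le (Complex.continuous_re.comp g.continuous) continuous_const
    exact (closure_minimal (fun a ha => (hg1' a ha).le) hcl) hyball
  have h2y : t ≤ (g ((2 : ℂ) • y)).re := by
    apply hg2'
    intro f hf
    have := hyC f hf
    rw [map_smul, smul_eq_mul]
    simpa using this
  have h2y' : (g ((2 : ℂ) • y)).re = 2 * (g y).re := by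
    rw [map_smul, smul_eq_mul]
    simp
  rw [h2y'] at h2y
  have hyt' := hg2' y hyC
  have ht : t = 0 := by linarith
  refine ⟨g, ?_, ?_, ?_⟩
  · intro b hb
    have := hg2' b hb
    rwa [ht] at this
  · linarith
  · have := hg1' z (Metric.mem_ball_self hdpos)
    rwa [ht] at this

end Pool.Agent.Lib_helper15
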