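import Pool.Agent.Lib_helper15.RealCone
import Pool.Agent.Lib_helper15.Homog

/-!
Tridiagonal operators with nonnegative products of opposite off-diagonal entries (helper15).
-/

set_option autoImplicit false

open Filter Topology

namespace Pool.Agent.Lib_helper15

variable {X : Type*} [NormedAddCommGroup X] [NormedSpace ℂ X]

/-- The reconstruction property of a biorthogonal system by nonnegative finite weights. -/
def WeaklySummable (e : ℕ → X) (es : ℕ → StrongDual ℂ X) (F : ℕ → Finset ℕ) (ρ : ℕ → ℕ → ℝ) :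
    Prop :=
  ∀ (x : X) (f : StrongDual ℂ X),
    Tendsto (fun j => ∑ n ∈ F j, (ρ j n : ℂ) * (es n x * f (e n))) atTop (𝓝 (f x))

section basics

variable {e : ℕ → X} {es : ℕ → StrongDual ℂ X} {F : ℕ → Finset ℕ} {ρ : ℕ → ℕ → ℝ}

theorem dual_ext_of (hsum : WeaklySummable e es F ρ) {f g : StrongDual ℂ X}
    (h : ∀ n, f (e n) = g (e n)) : f = g := by
  ext x
  refine tendsto_nhds_unique (hsum x f) ?_
  have := hsum x g
  simp only [← h] at this
  exact this

theorem total_of (hsum : WeaklySummable e es F ρ) {x : X} (h : ∀ n, es n x = 0) : x = 0 := by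
  apply eq_of_forall_dual_eq
  intro f
  rw [map_zero]
  refine tendsto_nhds_unique (hsum x f) ?_
  simp [h]

theorem op_ext_of (hsum : WeaklySummable e es F ρ) {A B : X →L[ℂ] X}
    (h : ∀ n, A (e n) = B (e n)) : A = B := by
  ext x
  apply eq_of_forall_dual_eq
  intro f
  have h1 : f.comp A = f.comp B := dual_ext_of hsum (fun n => by
    show f (A (e n)) = f (B (e n))
    rw [h])
  exact congrArg (fun g : StrongDual ℂ X => g x) h1

theorem es_conj (hsum : WeaklySummable e es F ρ)
    (hbi : ∀ m n, es m (e n) = if m = n then 1 else 0)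
    {J : X →SL[starRingEnd ℂ] X} (hJ : ∀ n, J (e n) = e n) (n : ℕ) (x : X) :
    es n (J x) = (starRingEnd ℂ) (es n x) := by
  let g : StrongDual ℂ X :=
    { toFun := fun x => (starRingEnd ℂ) (es n (J x))
      map_add' := by intro x y; simp
      map_smul' := by intro a x; simp
      cont := Complex.continuous_conj.comp ((es n).continuous.comp J.continuous) }
  have hg : g = es n := by
    apply dual_ext_of hsum
    intro k
    show (starRingEnd ℂ) (es n (J (e k))) = es n (e k)
    rw [hJ, hbi]
    split_ifs <;> simp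
  have h1 : (starRingEnd ℂ) (es n (J x)) = es n x := congrArg (fun g : StrongDual ℂ X => g x) hg
  rw [← h1]
  simp

theorem J_involutive (hsum : WeaklySummable e es F ρ)
    (hbi : ∀ m n, es m (e n) = if m = n then 1 else 0)
    {J : X →SL[starRingEnd ℂ] X} (hJ : ∀ n, J (e n) = e n) (x : X) : J (J x) = x := by
  have : J (J x) - x = 0 := by
    apply total_of hsum
    intro n
    rw [map_sub, es_conj hsum hbi hJ, es_conj hsum hbi hJ]
    simp
  exact sub_eq_zero.mp this

end basics

section tri

/-- The polynomials of the tridiagonal operator. -/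
noncomputable def triP (S : X →L[ℂ] X) (a b c : ℕ → ℝ) : ℕ → X →L[ℂ] X
  | 0 => 1
  | 1 => ((a 0 : ℂ)⁻¹) • (S - (b 0 : ℂ) • 1)
  | (n + 2) => ((a (n + 1) : ℂ)⁻¹) • (S * triP S a b c (n + 1) -
      (b (n + 1) : ℂ) • triP S a b c (n + 1) - (c n : ℂ) • triP S a b c n)

theorem triP_commute {S : X →L[ℂ] X} {a b c : ℕ → ℝ} {A : X →L[ℂ] X} (hA : A * S = S * A) :
    ∀ n, A * triP S a b c n = triP S a b c n * A := by
  have key : ∀ n, A * triP S a b c n = triP S a b c n * A ∧
      A * triP S a b c (n + 1) = triP S a b c (n + 1) * A := by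
    intro n
    induction n with
    | zero =>
      refine ⟨by simp [triP], ?_⟩
      simp only [triP, mul_smul_comm, smul_mul_assoc, mul_sub, sub_mul, hA, mul_one, one_mul]
    | succ n ih =>
      obtain ⟨h1, h2⟩ := ih
      refine ⟨h2, ?_⟩
      show A * triP S a b c (n + 2) = triP S a b c (n + 2) * A
      simp only [triP, mul_smul_comm, smul_mul_assoc, mul_sub, sub_mul]
      rw [← mul_assoc, hA, mul_assoc, h1, h2, mul_assoc]
  exact fun n => (key n).1

variable {e : ℕ → X} {es : ℕ → StrongDual ℂ X} {F : ℕ → Finset ℕ} {ρ : ℕ → ℕ → ℝ}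
  {S : X →L[ℂ] X} {a b c : ℕ → ℝ}

theorem triP_e (hS0 : S (e 0) = (a 0 : ℂ) • e 1 + (b 0 : ℂ) • e 0)
    (hS1 : ∀ n, S (e (n + 1)) = (a (n + 1) : ℂ) • e (n + 2) + (b (n + 1) : ℂ) • e (n + 1) +
      (c n : ℂ) • e n) (ha : ∀ n, a n ≠ 0) :
    ∀ n, triP S a b c n (e 0) = e n := by
  have ha' : ∀ n, (a n : ℂ) ≠ 0 := fun n => by exact_mod_cast ha n
  have key : ∀ n, triP S a b c n (e 0) = e n ∧ triP S a b c (n + 1) (e 0) = e (n + 1) := by
    intro n
    induction n with
    | zero =>
      refine ⟨by simp [triP], ?_⟩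
      show ((a 0 : ℂ)⁻¹) • (S (e 0) - (b 0 : ℂ) • e 0) = e 1
      rw [hS0, add_sub_cancel_right, smul_smul, inv_mul_cancel₀ (ha' 0), one_smul]
    | succ n ih =>
      obtain ⟨h1, h2⟩ := ih
      refine ⟨h2, ?_⟩
      show ((a (n + 1) : ℂ)⁻¹) • (S (triP S a b c (n + 1) (e 0)) -
        (b (n + 1) : ℂ) • triP S a b c (n + 1) (e 0) - (c n : ℂ) • triP S a b c n (e 0)) = e (n + 2)
      rw [h1, h2, hS1, add_sub_right_comm, add_sub_cancel_right, add_sub_cancel_right, smul_smul,
        inv_mul_cancel₀ (ha' _), one_smul]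
  exact fun n => (key n).1

theorem es_zero_S (hsum : WeaklySummable e es F ρ)
    (hbi : ∀ m n, es m (e n) = if m = n then 1 else 0)
    (hS0 : S (e 0) = (a 0 : ℂ) • e 1 + (b 0 : ℂ) • e 0)
    (hS1 : ∀ n, S (e (n + 1)) = (a (n + 1) : ℂ) • e (n + 2) + (b (n + 1) : ℂ) • e (n + 1) +
      (c n : ℂ) • e n) (x : X) : es 0 (S x) = b 0 * es 0 x + c 0 * es 1 x := by
  have : (es 0).comp S = (b 0 : ℂ) • es 0 + (c 0 : ℂ) • es 1 := by
    apply dual_ext_of hsum
    intro n
    show es 0 (S (e n)) = (b 0 : ℂ) * es 0 (e n) + (c 0 : ℂ) * es 1 (e n)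
    cases n with
    | zero => rw [hS0]; simp [hbi]
    | succ n =>
      rw [hS1]
      rcases n with _ | n
      · simp [hbi]
      · simp [hbi]
  exact congrArg (fun g : StrongDual ℂ X => g x) this

theorem es_succ_S (hsum : WeaklySummable e es F ρ)
    (hbi : ∀ m n, es m (e n) = if m = n then 1 else 0)
    (hS0 : S (e 0) = (a 0 : ℂ) • e 1 + (b 0 : ℂ) • e 0)
    (hS1 : ∀ n, S (e (n + 1)) = (a (n + 1) : ℂ) • e (n + 2) + (b (n + 1) : ℂ) • e (n + 1) +
      (c n : ℂ) • e n) (k : ℕ) (x : X) :
    es (k + 1) (S x) = a k * es k x + b (k + 1) * es (k + 1) x + c (k + 1) * es (k + 2) x := by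
  have : (es (k + 1)).comp S = (a k : ℂ) • es k + (b (k + 1) : ℂ) • es (k + 1) +
      (c (k + 1) : ℂ) • es (k + 2) := by
    apply dual_ext_of hsum
    intro n
    show es (k + 1) (S (e n)) = (a k : ℂ) * es k (e n) + (b (k + 1) : ℂ) * es (k + 1) (e n) +
      (c (k + 1) : ℂ) * es (k + 2) (e n)
    cases n with
    | zero =>
      rw [hS0]
      rcases k with _ | k
      · simp [hbi]
      · simp [hbi]
    | succ n =>
      rw [hS1]
      simp only [map_add, map_smul, hbi, smul_eq_mul]
      rcases Nat.lt_trichotomy n k with h | h | h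
      · rcases Nat.lt_or_ge (n + 1) k with h2 | h2
        · have h3 : k ≠ n + 1 := by omega
          have h6 : k + 1 ≠ n := by omega
          have h7 : k + 2 ≠ n + 1 := by omega
          have h8 : k ≠ n := by omega
          simp [h3, h6, h7, h8]
        · have h3 : k = n + 1 := by omega
          subst h3
          have h6 : n + 1 + 1 ≠ n := by omega
          simp [h6]
      · subst h
        simp
      · rcases Nat.lt_or_ge (k + 1) n with h2 | h2
        · have h3 : k ≠ n + 1 := by omega
          have h6 : k + 1 ≠ n := by omega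
          have h7 : k + 2 ≠ n + 1 := by omega
          have h8 : k ≠ n := by omega
          simp [h3, h6, h7, h8]
        · have h3 : n = k + 1 := by omega
          subst h3
          have h6 : k ≠ k + 1 + 1 := by omega
          have h7 : k + 1 ≠ k + 1 + 2 := by omega
          simp [h6]
  exact congrArg (fun g : StrongDual ℂ X => g x) this

/-- The symmetrizing weights. -/
noncomputable def triD (a c : ℕ → ℝ) : ℕ → ℝ
  | 0 => 1
  | (n + 1) => triD a c n * c n / a n

theorem triD_pos (hac : ∀ n, 0 < a n * c n) : ∀ n, 0 < triD a c n := by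
  intro n
  induction n with
  | zero => simp [triD]
  | succ n ih =>
    rw [triD]
    have h1 : a n ≠ 0 := by
      intro h
      have := hac n
      rw [h, zero_mul] at this
      exact lt_irrefl _ this
    have h2 : triD a c n * c n / a n = triD a c n * (a n * c n) / (a n) ^ 2 := by
      field_simp
    rw [h2]
    have := hac n
    positivity

theorem es_triP (hsum : WeaklySummable e es F ρ)
    (hbi : ∀ m n, es m (e n) = if m = n then 1 else 0)
    (hS0 : S (e 0) = (a 0 : ℂ) • e 1 + (b 0 : ℂ) • e 0)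
    (hS1 : ∀ n, S (e (n + 1)) = (a (n + 1) : ℂ) • e (n + 2) + (b (n + 1) : ℂ) • e (n + 1) +
      (c n : ℂ) • e n) (ha : ∀ n, a n ≠ 0) :
    ∀ n x, es 0 (triP S a b c n x) = triD a c n * es n x := by
  have ha' : ∀ n, (a n : ℂ) ≠ 0 := fun n => by exact_mod_cast ha n
  have key : ∀ n, (∀ x, es 0 (triP S a b c n x) = triD a c n * es n x) ∧
      (∀ x, es 0 (triP S a b c (n + 1) x) = triD a c (n + 1) * es (n + 1) x) := by
    intro n
    induction n with
    | zero =>
      refine ⟨fun x => by simp [triP, triD], fun x => ?_⟩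
      show es 0 (((a 0 : ℂ)⁻¹) • (S x - (b 0 : ℂ) • x)) = _
      rw [map_smul, map_sub, map_smul, es_zero_S hsum hbi hS0 hS1, smul_eq_mul, smul_eq_mul]
      simp only [triD, zero_add]
      push_cast
      have := ha' 0
      field_simp
      ring
    | succ n ih =>
      obtain ⟨h1, h2⟩ := ih
      refine ⟨h2, fun x => ?_⟩
      show es 0 (((a (n + 1) : ℂ)⁻¹) • (S (triP S a b c (n + 1) x) -
        (b (n + 1) : ℂ) • triP S a b c (n + 1) x - (c n : ℂ) • triP S a b c n x)) = _
      have h3 : S (triP S a b c (n + 1) x) = triP S a b c (n + 1) (S x) := by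
        have := congrArg (fun T : X →L[ℂ] X => T x)
          (triP_commute (S := S) (a := a) (b := b) (c := c) (A := S) rfl (n + 1))
        simpa using this
      rw [h3, map_smul, map_sub, map_sub, map_smul, map_smul, h1, h2, h2,
        es_succ_S hsum hbi hS0 hS1]
      simp only [smul_eq_mul]
      have h5 : triD a c (n + 2) = triD a c (n + 1) * c (n + 1) / a (n + 1) := rfl
      have h6 : triD a c (n + 1) = triD a c n * c n / a n := rfl
      show _ = ((triD a c (n + 2) : ℝ) : ℂ) * es (n + 2) x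
      rw [h5, h6]
      push_cast
      have := ha' n
      have := ha' (n + 1)
      field_simp
      ring
  exact fun n => (key n).1

theorem tri_real (hsum : WeaklySummable e es F ρ)
    (hbi : ∀ m n, es m (e n) = if m = n then 1 else 0)
    {J : X →SL[starRingEnd ℂ] X} (hJ : ∀ n, J (e n) = e n)
    (hS0 : S (e 0) = (a 0 : ℂ) • e 1 + (b 0 : ℂ) • e 0)
    (hS1 : ∀ n, S (e (n + 1)) = (a (n + 1) : ℂ) • e (n + 2) + (b (n + 1) : ℂ) • e (n + 1) +
      (c n : ℂ) • e n) (x : X) : J (S x) = S (J x) := by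
  have : J (S x) - S (J x) = 0 := by
    apply total_of hsum
    intro n
    rw [map_sub, es_conj hsum hbi hJ]
    cases n with
    | zero =>
      rw [es_zero_S hsum hbi hS0 hS1, es_zero_S hsum hbi hS0 hS1, es_conj hsum hbi hJ,
        es_conj hsum hbi hJ]
      simp
    | succ n =>
      rw [es_succ_S hsum hbi hS0 hS1, es_succ_S hsum hbi hS0 hS1, es_conj hsum hbi hJ,
        es_conj hsum hbi hJ, es_conj hsum hbi hJ]
      simp
  exact sub_eq_zero.mp this

/-- The nondegenerate case. -/
theorem tri_nondeg [CompleteSpace X]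
    (hrefl : Function.Surjective (NormedSpace.inclusionInDoubleDual ℂ X))
    (hsum : WeaklySummable e es F ρ) (hρ : ∀ j n, 0 ≤ ρ j n)
    (hbi : ∀ m n, es m (e n) = if m = n then 1 else 0)
    {J : X →SL[starRingEnd ℂ] X} (hJ : ∀ n, J (e n) = e n)
    (hS0 : S (e 0) = (a 0 : ℂ) • e 1 + (b 0 : ℂ) • e 0)
    (hS1 : ∀ n, S (e (n + 1)) = (a (n + 1) : ℂ) • e (n + 2) + (b (n + 1) : ℂ) • e (n + 1) +
      (c n : ℂ) • e n) (hac : ∀ n, 0 < a n * c n) : HasNontrivialHyperinvariantSubspace S := by
  have ha : ∀ n, a n ≠ 0 := by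
    intro n h
    have := hac n
    rw [h, zero_mul] at this
    exact lt_irrefl _ this
  have hd := triD_pos hac
  have hd' : ∀ n, (triD a c n : ℂ) ≠ 0 := fun n => by exact_mod_cast (hd n).ne'
  have hPe := triP_e (b := b) hS0 hS1 ha
  have hPs := es_triP hsum hbi hS0 hS1 ha
  have hPc : ∀ A : X →L[ℂ] X, A * S = S * A → ∀ n x, A (triP S a b c n x) =
      triP S a b c n (A x) := by
    intro A hA n x
    have := congrArg (fun T : X →L[ℂ] X => T x)
      (triP_commute (S := S) (a := a) (b := b) (c := c) hA n)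
    simpa using this
  have hsym : ∀ A : X →L[ℂ] X, A * S = S * A → ∀ n, es 0 (A (e n)) =
      triD a c n * es n (A (e 0)) := by
    intro A hA n
    rw [← hPs, ← hPc A hA, hPe]
  have hlim : ∀ A B : X →L[ℂ] X, A * S = S * A → 
      Tendsto (fun j => ∑ n ∈ F j, (ρ j n : ℂ) * (es n (B (e 0)) *
        (triD a c n * es n (A (e 0))))) atTop (𝓝 (es 0 (A (B (e 0))))) := by
    intro A B hA
    have h1 := hsum (B (e 0)) ((es 0).comp A)
    have h2 : ∀ n, ((es 0).comp A) (e n) = triD a c n * es n (A (e 0)) := fun n => hsym A hA n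
    simp only [h2] at h1
    exact h1
  have hcomm0 : ∀ A B : X →L[ℂ] X, A * S = S * A → B * S = S * B →
      es 0 (A (B (e 0))) = es 0 (B (A (e 0))) := by
    intro A B hA hB
    refine tendsto_nhds_unique (hlim A B hA) ?_
    refine (hlim B A hB).congr (fun j => ?_)
    refine Finset.sum_congr rfl (fun n _ => ?_)
    ring
  have hmulc : ∀ A B : X →L[ℂ] X, A * S = S * A → B * S = S * B → (A * B) * S = S * (A * B) := by
    intro A B hA hB
    rw [mul_assoc, hB, ← mul_assoc, hA, mul_assoc]
  have hPS : ∀ n, triP S a b c n * S = S * triP S a b c n := fun n =>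
    (triP_commute (S := S) (a := a) (b := b) (c := c) (A := S) rfl n).symm
  have hcomm1 : ∀ A B : X →L[ℂ] X, A * S = S * A → B * S = S * B →
      A (B (e 0)) = B (A (e 0)) := by
    intro A B hA hB
    have : A (B (e 0)) - B (A (e 0)) = 0 := by
      apply total_of hsum
      intro n
      rw [map_sub, sub_eq_zero]
      apply mul_left_cancel₀ (hd' n)
      rw [← hPs, ← hPs, ← hPc A hA]
      have h1 := hcomm0 A (triP S a b c n * B) hA (hmulc _ _ (hPS n) hB)
      exact h1
    exact sub_eq_zero.mp this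
  have hcomm : ∀ A B : X →L[ℂ] X, A * S = S * A → B * S = S * B → A * B = B * A := by
    intro A B hA hB
    apply op_ext_of hsum
    intro n
    show A (B (e n)) = B (A (e n))
    rw [← hPe n, hPc B hB, hPc A hA, hPc A hA, hPc B hB, hcomm1 A B hA hB]
  have hg₀ : es 0 ∈ posFun J S (e 0) := by
    refine ⟨?_, ?_⟩
    · intro A hA hAJ
      have hr : ∀ n, ((es n (A (e 0))).re : ℂ) = es n (A (e 0)) := by
        intro n
        have h1 := es_conj hsum hbi hJ n (A (e 0))
        rw [hAJ, hJ] at h1
        exact Complex.conj_eq_iff_re.mp h1.symm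
      have h1 := hlim A A hA
      have h2 : Tendsto (fun j => (∑ n ∈ F j, (ρ j n : ℂ) * (es n (A (e 0)) *
        (triD a c n * es n (A (e 0))))).re) atTop (𝓝 (es 0 (A (A (e 0)))).re) :=
        (Complex.continuous_re.tendsto _).comp h1
      refine ge_of_tendsto' h2 (fun j => ?_)
      rw [Complex.re_sum]
      refine Finset.sum_nonneg (fun n _ => ?_)
      rw [← hr n]
      have h3 : (ρ j n : ℂ) * (((es n (A (e 0))).re : ℂ) *
          ((triD a c n : ℂ) * ((es n (A (e 0))).re : ℂ))) =
          ((ρ j n * ((es n (A (e 0))).re * (triD a c n * (es n (A (e 0))).re)) : ℝ) : ℂ) := by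
        push_cast
        ring
      rw [h3, Complex.ofReal_re]
      have h4 := hρ j n
      have h5 := hd n
      have h6 : (es n (A (e 0))).re * (triD a c n * (es n (A (e 0))).re) =
          triD a c n * (es n (A (e 0))).re ^ 2 := by ring
      rw [h6]
      positivity
    · intro x hx
      have h1 := es_conj hsum hbi hJ 0 x
      rw [hx] at h1
      have h2 : (es 0 x).im = 0 := Complex.conj_eq_iff_im.mp h1.symm
      rw [map_smul, smul_eq_mul]
      simp [h2]
  refine commutative_positive hrefl J (J_involutive hsum hbi hJ) S (tri_real hsum hbi hJ hS0 hS1)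
    hcomm (e 0) (e 1) (hJ 0) (hJ 1) (es 0) hg₀ ?_ ?_ ?_
  · rw [hbi]; simp
  · rw [hbi]; simp
  · intro s hs
    have h0 := congrArg (es 0) hs
    have h1 := congrArg (es 1) hs
    have hr : ∀ (t : ℝ) (x : X), t • x = (t : ℂ) • x := fun t x => rfl
    rw [map_add, hr, hr, map_smul, map_smul, hbi, hbi, map_zero] at h0
    rw [map_add, hr, hr, map_smul, map_smul, hbi, hbi, map_zero] at h1
    simp only [smul_eq_mul, zero_ne_one, one_ne_zero, if_true, if_false, mul_one, mul_zero,
      add_zero, zero_add] at h0 h1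
    have h2 : (1 - 2 * s : ℝ) = 0 := by exact_mod_cast h0
    have h3 : s = 0 := by exact_mod_cast h1
    rw [h3] at h2
    norm_num at h2

/-- A linear map preserving a nonzero finite dimensional subspace has an eigenvector. -/
theorem exists_eigvec_of_finite {V : Type*} [AddCommGroup V] [Module ℂ V] (T : V →ₗ[ℂ] V)
    (M : Submodule ℂ V) [FiniteDimensional ℂ M] (hM : M ≠ ⊥) (hTM : ∀ x ∈ M, T x ∈ M) :
    ∃ (mu : ℂ) (x : V), x ≠ 0 ∧ T x = mu • x := by
  have hnt : Nontrivial M := Submodule.nontrivial_iff_ne_bot.mpr hM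
  obtain ⟨mu, hmu⟩ := Module.End.exists_eigenvalue (T.restrict hTM)
  obtain ⟨x, hx⟩ := hmu.exists_hasEigenvector
  refine ⟨mu, (x : V), ?_, ?_⟩
  · have := hx.2
    exact fun h => this (Subtype.ext h)
  · have h1 := Module.End.mem_eigenspace_iff.mp hx.1
    have h2 := congrArg (fun y : M => (y : V)) h1
    simpa using h2

theorem hasNHS_of_dual_eigenvector {S : X →L[ℂ] X}
    (hS : ∀ c : ℂ, S ≠ c • ContinuousLinearMap.id ℂ X) {mu : ℂ} {g : StrongDual ℂ X}
    (hg : g ≠ 0) (hgS : ∀ x, g (S x) = mu * g x) : HasNontrivialHyperinvariantSubspace S := by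
  by_contra h
  let R : X →L[ℂ] X := S - mu • ContinuousLinearMap.id ℂ X
  let N : Submodule ℂ X := LinearMap.range (R : X →ₗ[ℂ] X)
  have hN : ∀ A : X →L[ℂ] X, A * S = S * A → ∀ x ∈ N, A x ∈ N := by
    intro A hA x hx
    obtain ⟨y, rfl⟩ := hx
    refine ⟨A y, ?_⟩
    show S (A y) - mu • A y = A (S y - mu • y)
    rw [map_sub, map_smul]
    have := congrArg (fun T : X →L[ℂ] X => T y) hA
    have h2 : A (S y) = S (A y) := by simpa using this
    rw [h2]
  have hne : N ≠ ⊥ := by
    intro hbot
    apply hS mu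
    ext x
    have h1 : R x ∈ N := ⟨x, rfl⟩
    rw [hbot] at h1
    have h2 : S x - mu • x = 0 := by simpa [R] using h1
    simpa using sub_eq_zero.mp h2
  have htop := closure_eq_top_of_invariant h N hN hne
  apply hg
  ext x
  have hcl : IsClosed {x : X | g x = 0} := isClosed_eq g.continuous continuous_const
  have hsub : (N : Set X) ⊆ {x : X | g x = 0} := by
    rintro _ ⟨y, rfl⟩
    show g (S y - mu • y) = 0
    rw [map_sub, hgS, map_smul, smul_eq_mul, sub_self]
  have hx : x ∈ closure (N : Set X) := by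
    have : x ∈ N.topologicalClosure := by rw [htop]; trivial
    exact this
  have := closure_minimal hsub hcl hx
  simpa using this

/-- Some lower entry vanishes. -/
theorem tri_lower_zero (hS : ∀ c : ℂ, S ≠ c • ContinuousLinearMap.id ℂ X)
    (hbi : ∀ m n, es m (e n) = if m = n then 1 else 0)
    (hS0 : S (e 0) = (a 0 : ℂ) • e 1 + (b 0 : ℂ) • e 0)
    (hS1 : ∀ n, S (e (n + 1)) = (a (n + 1) : ℂ) • e (n + 2) + (b (n + 1) : ℂ) • e (n + 1) +
      (c n : ℂ) • e n) (n : ℕ) (hn : a n = 0) : HasNontrivialHyperinvariantSubspace S := by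
  let M : Submodule ℂ X := Submodule.span ℂ (e '' (Finset.range (n + 1) : Set ℕ))
  have hfin : FiniteDimensional ℂ M :=
    FiniteDimensional.span_of_finite ℂ ((Finset.finite_toSet _).image e)
  have hmem : ∀ k ≤ n, e k ∈ M := fun k hk => Submodule.subset_span ⟨k, by simp; omega, rfl⟩
  have hM : M ≠ ⊥ := by
    intro hbot
    have h1 := hmem 0 (Nat.zero_le _)
    rw [hbot] at h1
    have h2 : e 0 = 0 := by simpa using h1
    have h3 := hbi 0 0
    rw [h2] at h3
    simp at h3
  have hTM : ∀ x ∈ M, (S : X →ₗ[ℂ] X) x ∈ M := by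
    intro x hx
    have : M ≤ M.comap (S : X →ₗ[ℂ] X) := by
      rw [Submodule.span_le]
      rintro _ ⟨k, hk, rfl⟩
      have hk' : k ≤ n := by
        have : k < n + 1 := by simpa using hk
        omega
      show S (e k) ∈ M
      cases k with
      | zero =>
        rw [hS0]
        refine M.add_mem ?_ (M.smul_mem _ (hmem 0 (Nat.zero_le _)))
        rcases Nat.eq_zero_or_pos n with h | h
        · rw [← h, hn]; simp
        · exact M.smul_mem _ (hmem 1 h)
      | succ k =>
        rw [hS1]
        refine M.add_mem (M.add_mem ?_ (M.smul_mem _ (hmem _ hk'))) (M.smul_mem _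
          (hmem _ (by omega)))
        rcases hk'.eq_or_lt with h | h
        · rw [h, hn]; simp
        · exact M.smul_mem _ (hmem _ h)
    exact this hx
  obtain ⟨mu, x, hx0, hx⟩ := exists_eigvec_of_finite (S : X →ₗ[ℂ] X) M hM hTM
  exact hasNHS_of_eigenvector hS hx0 hx

/-- Some upper entry vanishes. -/
theorem tri_upper_zero (hS : ∀ c : ℂ, S ≠ c • ContinuousLinearMap.id ℂ X)
    (hsum : WeaklySummable e es F ρ)
    (hbi : ∀ m n, es m (e n) = if m = n then 1 else 0)
    (hS0 : S (e 0) = (a 0 : ℂ) • e 1 + (b 0 : ℂ) • e 0)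
    (hS1 : ∀ n, S (e (n + 1)) = (a (n + 1) : ℂ) • e (n + 2) + (b (n + 1) : ℂ) • e (n + 1) +
      (c n : ℂ) • e n) (n : ℕ) (hn : c n = 0) : HasNontrivialHyperinvariantSubspace S := by
  let M : Submodule ℂ (StrongDual ℂ X) :=
    Submodule.span ℂ (es '' (Finset.range (n + 1) : Set ℕ))
  have hfin : FiniteDimensional ℂ M :=
    FiniteDimensional.span_of_finite ℂ ((Finset.finite_toSet _).image es)
  have hmem : ∀ k ≤ n, es k ∈ M := fun k hk => Submodule.subset_span ⟨k, by simp; omega, rfl⟩
  have hM : M ≠ ⊥ := by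
    intro hbot
    have h1 := hmem 0 (Nat.zero_le _)
    rw [hbot] at h1
    have h2 : es 0 = 0 := by simpa using h1
    have h3 := hbi 0 0
    rw [h2] at h3
    simp at h3
  let T : StrongDual ℂ X →ₗ[ℂ] StrongDual ℂ X :=
    { toFun := fun f => f.comp S
      map_add' := by intro f g; ext x; simp
      map_smul' := by intro t f; ext x; simp }
  have hTM : ∀ x ∈ M, T x ∈ M := by
    intro x hx
    have : M ≤ M.comap T := by
      rw [Submodule.span_le]
      rintro _ ⟨k, hk, rfl⟩
      have hk' : k ≤ n := by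
        have : k < n + 1 := by simpa using hk
        omega
      show T (es k) ∈ M
      cases k with
      | zero =>
        have h1 : T (es 0) = (b 0 : ℂ) • es 0 + (c 0 : ℂ) • es 1 := by
          ext x
          exact es_zero_S hsum hbi hS0 hS1 x
        rw [h1]
        refine M.add_mem (M.smul_mem _ (hmem 0 (Nat.zero_le _))) ?_
        rcases Nat.eq_zero_or_pos n with h | h
        · have hz : (c 0 : ℂ) • es 1 = 0 := by
            ext x
            show (c 0 : ℂ) * es 1 x = 0
            rw [← h, hn]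
            simp
          rw [hz]
          exact M.zero_mem
        · exact M.smul_mem _ (hmem 1 h)
      | succ k =>
        have h1 : T (es (k + 1)) = (a k : ℂ) • es k + (b (k + 1) : ℂ) • es (k + 1) +
            (c (k + 1) : ℂ) • es (k + 2) := by
          ext x
          exact es_succ_S hsum hbi hS0 hS1 k x
        rw [h1]
        refine M.add_mem (M.add_mem (M.smul_mem _ (hmem _ (by omega))) (M.smul_mem _
          (hmem _ hk'))) ?_
        rcases hk'.eq_or_lt with h | h
        · have hz : (c (k + 1) : ℂ) • es (k + 2) = 0 := by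
            ext x
            show (c (k + 1) : ℂ) * es (k + 2) x = 0
            rw [h, hn]
            simp
          rw [hz]
          exact M.zero_mem
        · exact M.smul_mem _ (hmem _ h)
    exact this hx
  obtain ⟨mu, g, hg0, hg⟩ := exists_eigvec_of_finite T M hM hTM
  refine hasNHS_of_dual_eigenvector hS (mu := mu) hg0 (fun x => ?_)
  have := congrArg (fun f : StrongDual ℂ X => f x) hg
  simpa [T] using this

/-- The theorem on tridiagonal operators. -/
theorem tri_main [CompleteSpace X]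
    (hrefl : Function.Surjective (NormedSpace.inclusionInDoubleDual ℂ X))
    (hsum : WeaklySummable e es F ρ) (hρ : ∀ j n, 0 ≤ ρ j n)
    (hbi : ∀ m n, es m (e n) = if m = n then 1 else 0)
    {J : X →SL[starRingEnd ℂ] X} (hJ : ∀ n, J (e n) = e n)
    (hS : ∀ c : ℂ, S ≠ c • ContinuousLinearMap.id ℂ X)
    (hS0 : S (e 0) = (a 0 : ℂ) • e 1 + (b 0 : ℂ) • e 0)
    (hS1 : ∀ n, S (e (n + 1)) = (a (n + 1) : ℂ) • e (n + 2) + (b (n + 1) : ℂ) • e (n + 1) +
      (c n : ℂ) • e n) (hac : ∀ n, 0 ≤ a n * c n) : HasNontrivialHyperinvariantSubspace S := by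
  by_cases h1 : ∃ n, a n = 0
  · obtain ⟨n, hn⟩ := h1
    exact tri_lower_zero hS hbi hS0 hS1 n hn
  by_cases h2 : ∃ n, c n = 0
  · obtain ⟨n, hn⟩ := h2
    exact tri_upper_zero hS hsum hbi hS0 hS1 n hn
  push Not at h1 h2
  exact tri_nondeg hrefl hsum hρ hbi hJ hS0 hS1
    (fun n => lt_of_le_of_ne (hac n) (mul_ne_zero (h1 n) (h2 n)).symm)

end tri

end Pool.Agent.Lib_helper15
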