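import Pool.Agent.Lib_helper15.Basic

/-!
Weak limits along a fixed nonprincipal ultrafilter on `ℕ` in a reflexive Banach space (helper15).
-/

set_option autoImplicit false

open Filter Topology

namespace Pool.Agent.Lib_helper15

variable {X : Type*} [NormedAddCommGroup X] [NormedSpace ℂ X]

/-- A fixed nonprincipal ultrafilter on `ℕ`. -/
noncomputable def UF : Ultrafilter ℕ := Filter.hyperfilter ℕ

theorem UF_le_atTop : (UF : Filter ℕ) ≤ atTop := Nat.hyperfilter_le_atTop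

open Classical in
/-- Weak limit along `UF` (zero for unbounded sequences). -/
noncomputable def uLim (hrefl : Function.Surjective (NormedSpace.inclusionInDoubleDual ℂ X))
    (u : ℕ → X) : X :=
  if h : ∃ C : ℝ, ∀ n, ‖u n‖ ≤ C then
    Classical.choose (exists_weak_ulim hrefl UF u h.choose h.choose_spec) else 0

variable (hrefl : Function.Surjective (NormedSpace.inclusionInDoubleDual ℂ X))

include hrefl

theorem uLim_spec {u : ℕ → X} {C : ℝ} (hC : ∀ n, ‖u n‖ ≤ C) (f : StrongDual ℂ X) :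
    Tendsto (fun n => f (u n)) UF (𝓝 (f (uLim hrefl u))) := by
  have h : ∃ C : ℝ, ∀ n, ‖u n‖ ≤ C := ⟨C, hC⟩
  have := (Classical.choose_spec (exists_weak_ulim hrefl UF u h.choose h.choose_spec)).2 f
  simpa [uLim, h] using this

theorem uLim_unique {u : ℕ → X} {C : ℝ} (hC : ∀ n, ‖u n‖ ≤ C) {y : X}
    (hy : ∀ f : StrongDual ℂ X, Tendsto (fun n => f (u n)) UF (𝓝 (f y))) :
    uLim hrefl u = y := by
  apply eq_of_forall_dual_eq
  intro f
  exact tendsto_nhds_unique (uLim_spec hrefl hC f) (hy f)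

theorem norm_uLim_le {u : ℕ → X} {C : ℝ} (hC : ∀ n, ‖u n‖ ≤ C) : ‖uLim hrefl u‖ ≤ C := by
  obtain ⟨y, hy1, hy2⟩ := exists_weak_ulim hrefl UF u C hC
  rw [uLim_unique hrefl hC hy2]
  exact hy1

theorem uLim_add {u v : ℕ → X} {C D : ℝ} (hC : ∀ n, ‖u n‖ ≤ C) (hD : ∀ n, ‖v n‖ ≤ D) :
    uLim hrefl (fun n => u n + v n) = uLim hrefl u + uLim hrefl v := by
  refine uLim_unique hrefl (C := C + D) (fun n => (norm_add_le _ _).trans
    (add_le_add (hC n) (hD n))) ?_
  intro f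
  have := (uLim_spec hrefl hC f).add (uLim_spec hrefl hD f)
  simpa using this

theorem uLim_smul {u : ℕ → X} {C : ℝ} (hC : ∀ n, ‖u n‖ ≤ C) (a : ℂ) :
    uLim hrefl (fun n => a • u n) = a • uLim hrefl u := by
  refine uLim_unique hrefl (C := ‖a‖ * C) (fun n => ?_) ?_
  · rw [norm_smul]; gcongr; exact hC n
  · intro f
    have := (uLim_spec hrefl hC f).const_smul a
    simpa using this

theorem uLim_map {u : ℕ → X} {C : ℝ} (hC : ∀ n, ‖u n‖ ≤ C) (L : X →L[ℂ] X) :
    uLim hrefl (fun n => L (u n)) = L (uLim hrefl u) := by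
  refine uLim_unique hrefl (C := ‖L‖ * C) (fun n => (L.le_opNorm _).trans
    (by gcongr; exact hC n)) ?_
  intro f
  exact uLim_spec hrefl hC (f.comp L)

theorem uLim_const (x : X) : uLim hrefl (fun _ => x) = x :=
  uLim_unique hrefl (C := ‖x‖) (fun _ => le_rfl) (fun _ => tendsto_const_nhds)

/-- Weak limits of sequences `a n • u n` with converging scalars. -/
theorem uLim_smul_tendsto {u : ℕ → X} {C : ℝ} (hC : ∀ n, ‖u n‖ ≤ C) {a : ℕ → ℂ} {l : ℂ} {D : ℝ}
    (hD : ∀ n, ‖a n‖ ≤ D) (ha : Tendsto a UF (𝓝 l)) :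
    uLim hrefl (fun n => a n • u n) = l • uLim hrefl u := by
  have hD0 : 0 ≤ D := (norm_nonneg _).trans (hD 0)
  refine uLim_unique hrefl (C := D * C) (fun n => ?_) ?_
  · rw [norm_smul]; exact mul_le_mul (hD n) (hC n) (norm_nonneg _) hD0
  · intro f
    have := ha.mul (uLim_spec hrefl hC f)
    simpa using this

/-- Sequences with the same tails (up to a norm-null error) have the same weak limit. -/
theorem uLim_congr {u v : ℕ → X} {C D : ℝ} (hC : ∀ n, ‖u n‖ ≤ C) (hD : ∀ n, ‖v n‖ ≤ D)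
    (h : Tendsto (fun n => ‖u n - v n‖) atTop (𝓝 0)) :
    uLim hrefl u = uLim hrefl v := by
  refine uLim_unique hrefl hC ?_
  intro f
  have h1 := uLim_spec hrefl hD f
  have h2 : Tendsto (fun n => f (u n - v n)) UF (𝓝 0) := by
    have h3 : Tendsto (fun n => f (u n - v n)) atTop (𝓝 0) := by
      apply squeeze_zero_norm (a := fun n => ‖f‖ * ‖u n - v n‖)
      · intro n; exact f.le_opNorm _
      · simpa using h.const_mul ‖f‖
    exact h3.mono_left UF_le_atTop
  have h3 := h2.add h1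
  simp only [zero_add] at h3
  refine h3.congr (fun n => ?_)
  simp

/-- Version of `uLim_congr` for eventual equality. -/
theorem uLim_congr' {u v : ℕ → X} {C D : ℝ} (hC : ∀ n, ‖u n‖ ≤ C) (hD : ∀ n, ‖v n‖ ≤ D)
    (h : ∀ᶠ n in atTop, u n = v n) :
    uLim hrefl u = uLim hrefl v := by
  refine uLim_unique hrefl hC ?_
  intro f
  refine (uLim_spec hrefl hD f).congr' ?_
  filter_upwards [UF_le_atTop h] with n hn
  rw [hn]

omit hrefl in
/-- Cesàro means. -/
noncomputable def avg (u : ℕ → X) (N : ℕ) : X := ((N : ℂ) + 1)⁻¹ • ∑ n ∈ Finset.range (N + 1), u n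

omit hrefl in
theorem norm_avg_le {u : ℕ → X} {C : ℝ} (hC : ∀ n, ‖u n‖ ≤ C) (N : ℕ) : ‖avg u N‖ ≤ C := by
  unfold avg
  have hN : ‖((N : ℂ) + 1)‖ = (N : ℝ) + 1 := by
    have : ((N : ℂ) + 1) = ((N + 1 : ℕ) : ℂ) := by push_cast; ring
    rw [this, Complex.norm_natCast]; push_cast; ring
  rw [norm_smul, norm_inv, hN]
  have h1 : ‖∑ n ∈ Finset.range (N + 1), u n‖ ≤ ((N : ℝ) + 1) * C := by
    calc ‖∑ n ∈ Finset.range (N + 1), u n‖ ≤ ∑ n ∈ Finset.range (N + 1), ‖u n‖ :=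
          norm_sum_le _ _
      _ ≤ ∑ _n ∈ Finset.range (N + 1), C := Finset.sum_le_sum (fun n _ => hC n)
      _ = ((N : ℝ) + 1) * C := by simp
  have h2 : (0 : ℝ) < (N : ℝ) + 1 := by positivity
  calc ((N : ℝ) + 1)⁻¹ * ‖∑ n ∈ Finset.range (N + 1), u n‖ ≤ ((N : ℝ) + 1)⁻¹ *
        (((N : ℝ) + 1) * C) := by gcongr
    _ = C := by field_simp

omit hrefl in
theorem avg_add (u v : ℕ → X) (N : ℕ) : avg (fun n => u n + v n) N = avg u N + avg v N := by
  unfold avg; rw [Finset.sum_add_distrib, smul_add]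

omit hrefl in
theorem avg_smul (u : ℕ → X) (a : ℂ) (N : ℕ) : avg (fun n => a • u n) N = a • avg u N := by
  unfold avg; rw [← Finset.smul_sum, smul_comm]

omit hrefl in
theorem avg_map (u : ℕ → X) (L : X →L[ℂ] X) (N : ℕ) : avg (fun n => L (u n)) N = L (avg u N) := by
  unfold avg; rw [map_smul, map_sum]

omit hrefl in
theorem avg_const (x : X) (N : ℕ) : avg (fun _ => x) N = x := by
  unfold avg
  rw [Finset.sum_const, Finset.card_range]
  have : ((N : ℂ) + 1) ≠ 0 := by exact_mod_cast Nat.succ_ne_zero N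
  rw [← Nat.cast_smul_eq_nsmul ℂ (N + 1) x, smul_smul]
  push_cast
  rw [inv_mul_cancel₀ this, one_smul]

omit hrefl in
theorem avg_shift {u : ℕ → X} {C : ℝ} (hC : ∀ n, ‖u n‖ ≤ C) :
    Tendsto (fun N => ‖avg (fun n => u (n + 1)) N - avg u N‖) atTop (𝓝 0) := by
  have hbound : ∀ N : ℕ, ‖avg (fun n => u (n + 1)) N - avg u N‖ ≤ (2 * C) * (1 / ((N : ℝ) + 1)) := by
    intro N
    unfold avg
    rw [← smul_sub]
    have h1 : ∑ n ∈ Finset.range (N + 1), u (n + 1) - ∑ n ∈ Finset.range (N + 1), u n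
        = u (N + 1) - u 0 := by
      rw [← Finset.sum_sub_distrib]
      exact Finset.sum_range_sub u (N + 1)
    rw [h1]
    have hN : ‖((N : ℂ) + 1)‖ = (N : ℝ) + 1 := by
      have : ((N : ℂ) + 1) = ((N + 1 : ℕ) : ℂ) := by push_cast; ring
      rw [this, Complex.norm_natCast]; push_cast; ring
    rw [norm_smul, norm_inv, hN]
    have h2 : ‖u (N + 1) - u 0‖ ≤ 2 * C := by
      calc ‖u (N + 1) - u 0‖ ≤ ‖u (N + 1)‖ + ‖u 0‖ := norm_sub_le _ _
        _ ≤ C + C := add_le_add (hC _) (hC _)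
        _ = 2 * C := by ring
    have h3 : (0 : ℝ) < (N : ℝ) + 1 := by positivity
    calc ((N : ℝ) + 1)⁻¹ * ‖u (N + 1) - u 0‖ ≤ ((N : ℝ) + 1)⁻¹ * (2 * C) := by gcongr
      _ = (2 * C) * (1 / ((N : ℝ) + 1)) := by rw [one_div]; ring
  have hlim : Tendsto (fun N : ℕ => (2 * C) * (1 / ((N : ℝ) + 1))) atTop (𝓝 0) := by
    have := tendsto_one_div_add_atTop_nhds_zero_nat (𝕜 := ℝ)
    simpa using this.const_mul (2 * C)
  exact squeeze_zero (fun N => norm_nonneg _) hbound hlim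

/-- Cesàro weak limit. -/
noncomputable def cLim (u : ℕ → X) : X := uLim hrefl (avg u)

theorem norm_cLim_le {u : ℕ → X} {C : ℝ} (hC : ∀ n, ‖u n‖ ≤ C) : ‖cLim hrefl u‖ ≤ C :=
  norm_uLim_le hrefl (norm_avg_le hC)

theorem cLim_add {u v : ℕ → X} {C D : ℝ} (hC : ∀ n, ‖u n‖ ≤ C) (hD : ∀ n, ‖v n‖ ≤ D) :
    cLim hrefl (fun n => u n + v n) = cLim hrefl u + cLim hrefl v := by
  unfold cLim
  rw [← uLim_add hrefl (norm_avg_le hC) (norm_avg_le hD)]
  congr 1
  funext N
  exact avg_add u v N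

theorem cLim_smul {u : ℕ → X} {C : ℝ} (hC : ∀ n, ‖u n‖ ≤ C) (a : ℂ) :
    cLim hrefl (fun n => a • u n) = a • cLim hrefl u := by
  unfold cLim
  rw [← uLim_smul hrefl (norm_avg_le hC)]
  congr 1
  funext N
  exact avg_smul u a N

theorem cLim_map {u : ℕ → X} {C : ℝ} (hC : ∀ n, ‖u n‖ ≤ C) (L : X →L[ℂ] X) :
    cLim hrefl (fun n => L (u n)) = L (cLim hrefl u) := by
  unfold cLim
  rw [← uLim_map hrefl (norm_avg_le hC)]
  congr 1
  funext N
  exact avg_map u L N

theorem cLim_const (x : X) : cLim hrefl (fun _ => x) = x := by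
  unfold cLim
  have : avg (fun _ : ℕ => x) = fun _ => x := by funext N; exact avg_const x N
  rw [this, uLim_const]

theorem cLim_shift {u : ℕ → X} {C : ℝ} (hC : ∀ n, ‖u n‖ ≤ C) :
    cLim hrefl (fun n => u (n + 1)) = cLim hrefl u :=
  uLim_congr hrefl (norm_avg_le (fun n => hC (n + 1))) (norm_avg_le hC) (avg_shift hC)

end Pool.Agent.Lib_helper15
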